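import Mathlib

/-!
# Arrangements of two lines, their Markov-Davenport forms, best approximations and sails
-/

namespace Pool.Agent.X123.Sail

/-- An arrangement of two distinct lines `aᵢ x + bᵢ y = 0` through the origin, given by linear
forms vanishing on them. -/
structure Arrangement where
  a₁ : ℝ
  b₁ : ℝ
  a₂ : ℝ
  b₂ : ℝ
  det_ne : a₁ * b₂ - a₂ * b₁ ≠ 0

namespace Arrangement

/-- The first line. -/
def line₁ (R : Arrangement) : Set (ℝ × ℝ) := {p | R.a₁ * p.1 + R.b₁ * p.2 = 0}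

/-- The second line. -/
def line₂ (R : Arrangement) : Set (ℝ × ℝ) := {p | R.a₂ * p.1 + R.b₂ * p.2 = 0}

/-- The coefficients of `x²`, `xy`, `y²` in the Markov-Davenport form
`(a₁ x + b₁ y) (a₂ x + b₂ y) / (a₁ b₂ - a₂ b₁)`. -/
noncomputable def coeff (R : Arrangement) : Fin 3 → ℝ :=
  ![R.a₁ * R.a₂ / (R.a₁ * R.b₂ - R.a₂ * R.b₁),
    (R.a₁ * R.b₂ + R.a₂ * R.b₁) / (R.a₁ * R.b₂ - R.a₂ * R.b₁),
    R.b₁ * R.b₂ / (R.a₁ * R.b₂ - R.a₂ * R.b₁)]

/-- The discrepancy `ρ(R, R')`: the smaller one of the largest absolute values of the coefficients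
of the sum and of the difference of the two Markov-Davenport forms. -/
noncomputable def rho (R R' : Arrangement) : ℝ :=
  min (max |R.coeff 0 + R'.coeff 0| (max |R.coeff 1 + R'.coeff 1| |R.coeff 2 + R'.coeff 2|))
    (max |R.coeff 0 - R'.coeff 0| (max |R.coeff 1 - R'.coeff 1| |R.coeff 2 - R'.coeff 2|))

/-- One of the four closed angles cut out by the two lines; `s, t ∈ {1, -1}`. -/
def angle (R : Arrangement) (s t : ℝ) : Set (ℝ × ℝ) :=
  {p | 0 ≤ s * (R.a₁ * p.1 + R.b₁ * p.2) ∧ 0 ≤ t * (R.a₂ * p.1 + R.b₂ * p.2)}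

end Arrangement

/-- The point of the plane given by an integer vector. -/
def emb (v : ℤ × ℤ) : ℝ × ℝ := ((v.1 : ℝ), (v.2 : ℝ))

/-- The sail of an angle `C`: the boundary of the convex hull of its nonzero integer points. -/
def sail (C : Set (ℝ × ℝ)) : Set (ℝ × ℝ) :=
  frontier (convexHull ℝ {p | p ∈ C ∧ p ≠ 0 ∧ ∃ v : ℤ × ℤ, p = emb v})

/-- The geometric continued fraction of `R`: the union of the sails of the four angles. -/
def continuedFraction (R : Arrangement) : Set (ℝ × ℝ) :=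
  {p | ∃ s t : ℝ, (s = 1 ∨ s = -1) ∧ (t = 1 ∨ t = -1) ∧ p ∈ sail (R.angle s t)}

/-- `R` is algebraic: its lines are the eigenlines of a matrix in `GL(2, ℤ)` with irreducible
characteristic polynomial (and two real eigenvalues `μ₁ ≠ μ₂`). -/
def Algebraic (R : Arrangement) : Prop :=
  ∃ A : Matrix (Fin 2) (Fin 2) ℤ, IsUnit A ∧
    Irreducible (A.charpoly.map (Int.castRingHom ℚ)) ∧
    ∃ μ₁ μ₂ : ℝ, μ₁ ≠ μ₂ ∧
      (∀ p ∈ R.line₁, ((A 0 0 : ℝ) * p.1 + A 0 1 * p.2, (A 1 0 : ℝ) * p.1 + A 1 1 * p.2) = μ₁ • p) ∧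
      (∀ p ∈ R.line₂, ((A 0 0 : ℝ) * p.1 + A 0 1 * p.2, (A 1 0 : ℝ) * p.1 + A 1 1 * p.2) = μ₂ • p)

/-- `R'` is an integer arrangement of size at most `N`, with the primitive integer vectors
`v₁, v₂` on its two lines. -/
def Admissible (N : ℕ) (R' : Arrangement) (v₁ v₂ : ℤ × ℤ) : Prop :=
  IsCoprime v₁.1 v₁.2 ∧ IsCoprime v₂.1 v₂.2 ∧ emb v₁ ∈ R'.line₁ ∧ emb v₂ ∈ R'.line₂ ∧
    max (max |v₁.1| |v₁.2|) (max |v₂.1| |v₂.2|) ≤ N

/-- `R'`, with the primitive integer vectors `v₁, v₂`, is a best approximation of `R` among the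
integer arrangements of size at most `N`. -/
def IsBest (R : Arrangement) (N : ℕ) (R' : Arrangement) (v₁ v₂ : ℤ × ℤ) : Prop :=
  Admissible N R' v₁ v₂ ∧ ∀ R'' w₁ w₂, Admissible N R'' w₁ w₂ → R.rho R' ≤ R.rho R''

end Pool.Agent.X123.Sail
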