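import Pool.Agent.X123.Sail.Hull

/-!
# Estimates for the discrepancy
-/

namespace Pool.Agent.X123.Sail

open Real
open scoped goldenRatio

/-- the coefficient of `x²` of the form of an integer arrangement -/
noncomputable def c0 (v w : ℤ × ℤ) : ℝ := (v.2 * w.2 : ℝ) / (v.1 * w.2 - w.1 * v.2)

theorem prop_vec {a b x y : ℝ} (hab : a ≠ 0 ∨ b ≠ 0) (hxy : x ≠ 0 ∨ y ≠ 0)
    (h : a * x + b * y = 0) : ∃ t : ℝ, t ≠ 0 ∧ a = t * y ∧ b = -(t * x) := by
  by_cases hx : x = 0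
  · have hy : y ≠ 0 := hxy.resolve_left (fun h => h hx)
    have hb : b = 0 := by
      rw [hx, mul_zero, zero_add] at h
      exact (mul_eq_zero.1 h).resolve_right hy
    have ha : a ≠ 0 := hab.resolve_right (fun h => h hb)
    exact ⟨a / y, div_ne_zero ha hy, by field_simp, by rw [hb, hx]; ring⟩
  · refine ⟨-b / x, ?_, ?_, by field_simp⟩
    · intro h0
      rw [div_eq_zero_iff] at h0
      have hb : b = 0 := by
        rcases h0 with h0 | h0
        · linarith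
        · exact absurd h0 hx
      rw [hb, zero_mul, add_zero] at h
      rcases hab with h1 | h1
      · exact h1 ((mul_eq_zero.1 h).resolve_right hx)
      · exact h1 hb
    · field_simp
      linarith

theorem coeff_of_admissible {N : ℕ} {R : Arrangement} {v w : ℤ × ℤ} (h : Admissible N R v w) :
    (v.1 * w.2 - w.1 * v.2 : ℝ) ≠ 0 ∧
    R.coeff 0 = (v.2 * w.2 : ℝ) / (v.1 * w.2 - w.1 * v.2) ∧
    R.coeff 1 = (-(v.2 * w.1) - w.2 * v.1 : ℝ) / (v.1 * w.2 - w.1 * v.2) ∧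
    R.coeff 2 = (v.1 * w.1 : ℝ) / (v.1 * w.2 - w.1 * v.2) := by
  obtain ⟨hv, hw, h1, h2, -⟩ := h
  have hdet := R.det_ne
  have nz : ∀ {u : ℤ × ℤ}, IsCoprime u.1 u.2 → (u.1 : ℝ) ≠ 0 ∨ (u.2 : ℝ) ≠ 0 := by
    intro u hu
    by_contra hcon
    push Not at hcon
    have e1 : u.1 = 0 := by exact_mod_cast hcon.1
    have e2 : u.2 = 0 := by exact_mod_cast hcon.2
    rw [e1, e2] at hu
    exact not_isCoprime_zero_zero hu
  have n1 : R.a₁ ≠ 0 ∨ R.b₁ ≠ 0 := by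
    by_contra hcon
    push Not at hcon
    apply hdet
    rw [hcon.1, hcon.2]; ring
  have n2 : R.a₂ ≠ 0 ∨ R.b₂ ≠ 0 := by
    by_contra hcon
    push Not at hcon
    apply hdet
    rw [hcon.1, hcon.2]; ring
  obtain ⟨s, hs, ha1, hb1⟩ := prop_vec n1 (nz hv) h1
  obtain ⟨t, ht, ha2, hb2⟩ := prop_vec n2 (nz hw) h2
  have hD : R.a₁ * R.b₂ - R.a₂ * R.b₁ = (s * t) * (v.1 * w.2 - w.1 * v.2) := by
    rw [ha1, hb1, ha2, hb2]; ring
  have hst : s * t ≠ 0 := mul_ne_zero hs ht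
  have hne : (v.1 * w.2 - w.1 * v.2 : ℝ) ≠ 0 := by
    intro h0
    rw [hD, h0, mul_zero] at hdet
    exact hdet rfl
  refine ⟨hne, ?_, ?_, ?_⟩
  · show R.a₁ * R.a₂ / (R.a₁ * R.b₂ - R.a₂ * R.b₁) = _
    rw [hD, ha1, ha2, div_eq_div_iff (mul_ne_zero hst hne) hne]
    ring
  · show (R.a₁ * R.b₂ + R.a₂ * R.b₁) / (R.a₁ * R.b₂ - R.a₂ * R.b₁) = _
    rw [hD, ha1, ha2, hb1, hb2, div_eq_div_iff (mul_ne_zero hst hne) hne]
    ring
  · show R.b₁ * R.b₂ / (R.a₁ * R.b₂ - R.a₂ * R.b₁) = _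
    rw [hD, hb1, hb2, div_eq_div_iff (mul_ne_zero hst hne) hne]
    ring

/-- the arrangement of two integer vectors -/
noncomputable def ofVec (v w : ℤ × ℤ) (h : (v.1 * w.2 - w.1 * v.2 : ℝ) ≠ 0) : Arrangement where
  a₁ := v.2
  b₁ := -v.1
  a₂ := w.2
  b₂ := -w.1
  det_ne := by
    intro h0
    apply h
    linear_combination h0

theorem R0_coeff : R0.coeff 0 = -((1000 + φ) * (1000 + ψ)) / √5 ∧
    R0.coeff 1 = (2001 : ℝ) / √5 ∧ R0.coeff 2 = -1 / √5 := by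
  have h5 := s5pos
  have hd := goldenRatio_sub_goldenConj
  have hs := goldenRatio_add_goldenConj
  have hD : R0.a₁ * R0.b₂ - R0.a₂ * R0.b₁ = -√5 := by
    simp only [R0]; rw [← hd]; ring
  refine ⟨?_, ?_, ?_⟩
  · show R0.a₁ * R0.a₂ / (R0.a₁ * R0.b₂ - R0.a₂ * R0.b₁) = _
    rw [hD, div_eq_div_iff (by simp) h5.ne']
    simp only [R0]
    ring
  · show (R0.a₁ * R0.b₂ + R0.a₂ * R0.b₁) / (R0.a₁ * R0.b₂ - R0.a₂ * R0.b₁) = _
    rw [hD, div_eq_div_iff (by simp) h5.ne']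
    simp only [R0]
    linear_combination (-√5) * hs
  · show R0.b₁ * R0.b₂ / (R0.a₁ * R0.b₂ - R0.a₂ * R0.b₁) = _
    rw [hD, div_eq_div_iff (by simp) h5.ne']
    simp only [R0]
    ring

theorem PQ : (1000 + φ) * (1000 + ψ) = 1000999 := by
  have h1 := goldenRatio_mul_goldenConj
  have h2 := goldenRatio_add_goldenConj
  linear_combination h1 + 1000 * h2

/-- the discrepancy is at least the difference of the coefficients of `x²`. -/
theorem rho_ge (R : Arrangement) : |(|R.coeff 0| - 1000999 / √5)| ≤ R0.rho R := by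
  have h0 := R0_coeff.1
  rw [PQ] at h0
  have h5 := s5pos
  have habs : |R0.coeff 0| = 1000999 / √5 := by
    rw [h0, neg_div, abs_neg, abs_of_pos (by positivity)]
  rw [← habs]
  apply le_min
  · refine le_trans ?_ (le_max_left _ _)
    have := abs_abs_sub_abs_le (R.coeff 0) (-R0.coeff 0)
    rw [abs_neg, sub_neg_eq_add, add_comm (R.coeff 0)] at this
    exact this
  · refine le_trans ?_ (le_max_left _ _)
    have := abs_abs_sub_abs_le (R.coeff 0) (R0.coeff 0)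
    rw [abs_sub_comm (R.coeff 0)] at this
    exact this

/-! ### the vectors `e k` -/

theorem e_nat (p : ℕ) : e p = ((Nat.fib p : ℤ), (Nat.fib (p + 1) : ℤ) + 1000 * Nat.fib p) := by
  simp only [e, Int.fib_natCast]
  congr 2

theorem e_neg (q : ℕ) : e (-(q + 1 : ℕ)) = ((-1) ^ q * (Nat.fib (q + 1) : ℤ),
    (-1) ^ q * (1000 * Nat.fib (q + 1) - Nat.fib q : ℤ)) := by
  have h1 : Int.fib (-(q + 1 : ℕ)) = (-1) ^ q * (Nat.fib (q + 1) : ℤ) := by
    rw [Int.fib_neg_natCast, pow_add, pow_add]; ring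
  have h2 : Int.fib (-((q + 1 : ℕ) : ℤ) + 1) = -(-1) ^ q * (Nat.fib q : ℤ) := by
    have : -((q + 1 : ℕ) : ℤ) + 1 = -(q : ℤ) := by push_cast; ring
    rw [this, Int.fib_neg_natCast, pow_add]; ring
  rw [e, h1, h2]
  congr 1
  ring

/-- the second coordinate of `e k` has size about `1000 |F_k|` -/
theorem e_size (k : ℤ) (hk : k ≠ 0) :
    |(e k).1| = Nat.fib k.natAbs ∧ 999 * (Nat.fib k.natAbs : ℤ) ≤ |(e k).2| ∧
      |(e k).2| ≤ 1002 * (Nat.fib k.natAbs : ℤ) := by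
  obtain ⟨p, hp | hp⟩ := k.eq_nat_or_neg
  · subst hp
    rw [e_nat, Int.natAbs_natCast]
    have h1 : (Nat.fib p : ℤ) ≤ Nat.fib (p + 1) := by exact_mod_cast Nat.fib_le_fib_succ
    have h2 : (Nat.fib (p + 1) : ℤ) ≤ 2 * Nat.fib p := by
      obtain ⟨r, rfl⟩ : ∃ r, p = r + 1 := ⟨p - 1, by omega⟩
      rw [Nat.fib_add_two]
      have : (Nat.fib r : ℤ) ≤ Nat.fib (r + 1) := by exact_mod_cast Nat.fib_le_fib_succ
      push_cast
      linarith
    have h0 : (0 : ℤ) ≤ Nat.fib p := by positivity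
    rw [abs_of_nonneg h0, abs_of_nonneg (by linarith)]
    refine ⟨rfl, by linarith, by linarith⟩
  · obtain ⟨r, rfl⟩ : ∃ r, p = r + 1 := ⟨p - 1, by omega⟩
    subst hp
    have hn : (-((r + 1 : ℕ) : ℤ)).natAbs = r + 1 := by omega
    rw [e_neg, hn]
    have h1 : (Nat.fib r : ℤ) ≤ Nat.fib (r + 1) := by exact_mod_cast Nat.fib_le_fib_succ
    have h0 : (0 : ℤ) ≤ Nat.fib r := by positivity
    simp only [abs_mul, abs_pow, abs_neg, abs_one, one_pow, one_mul]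
    rw [abs_of_nonneg (show (0 : ℤ) ≤ Nat.fib (r + 1) by positivity),
      abs_of_nonneg (by linarith)]
    exact ⟨rfl, by linarith, by linarith⟩

theorem det_e (a b : ℤ) : ((e a).1 * (e b).2 - (e b).1 * (e a).2 : ℝ) =
    (φ ^ a * ψ ^ b - ψ ^ a * φ ^ b) / √5 := by
  have h5 := s5pos
  have h1 := lam1_e a
  have h2 := lam2_e a
  have h3 := lam1_e b
  have h4 := lam2_e b
  rw [eq_div_iff h5.ne', ← h1, ← h2, ← h3, ← h4, ← goldenRatio_sub_goldenConj]
  simp only [lam1, lam2, emb]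
  ring

theorem G_e (a : ℤ) : ((e a).2 : ℝ) = ((1000 + φ) * φ ^ a - (1000 + ψ) * ψ ^ a) / √5 := by
  have h5 := s5pos
  have h1 := lam1_e a
  have h2 := lam2_e a
  rw [eq_div_iff h5.ne', ← h1, ← h2, ← goldenRatio_sub_goldenConj]
  simp only [lam1, lam2, emb]
  ring

end Pool.Agent.X123.Sail
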