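import Pool.Agent.X123.Sail.Low

/-!
# The Lucas-Fibonacci pair, and the main theorem
-/

namespace Pool.Agent.X123.Sail

open Real
open scoped goldenRatio

/-- Lucas numbers `L_i` -/
def Lu (i : ℕ) : ℤ := 2 * Nat.fib (i + 1) - Nat.fib i

theorem Lu_succ (i : ℕ) : Lu (i + 1) = Nat.fib (i + 1) + 2 * Nat.fib i := by
  rw [Lu, Nat.fib_add_two]; push_cast; ring

theorem Lu_add_two (i : ℕ) : Lu (i + 2) = Lu (i + 1) + Lu i := by
  rw [Lu_succ, Lu_succ, Lu, Nat.fib_add_two]; push_cast; ring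

theorem Lu_cast (i : ℕ) : (Lu i : ℝ) = φ ^ i + ψ ^ i := by
  have h5 := s5pos
  have h55 := s5
  rw [Lu]
  push_cast
  rw [coe_fib_eq, coe_fib_eq, pow_succ, pow_succ]
  have e1 : 2 * φ - 1 = √5 := by rw [phi_def]; ring
  have e2 : 2 * ψ - 1 = -√5 := by rw [psi_def]; ring
  field_simp
  linear_combination φ ^ i * e1 - ψ ^ i * e2

/-- the vector near the first line -/
def v1 (i : ℕ) : ℤ × ℤ := (Lu i, 1000 * Lu i + Lu (i + 1))
/-- the vector near the second line -/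
def v2 (i : ℕ) : ℤ × ℤ := (Nat.fib i, 1001 * Nat.fib i - Nat.fib (i + 1))

theorem Lu_coprime (i : ℕ) : IsCoprime (Lu i) (Lu (i + 1)) := by
  induction i with
  | zero => simp [Lu]
  | succ i ih =>
    rw [Lu_add_two]
    have := (IsCoprime.add_mul_left_right ih.symm 1)
    rw [mul_one] at this
    rw [add_comm (Lu (i + 1)) (Lu i)]
    exact this

theorem v1_coprime (i : ℕ) : IsCoprime (v1 i).1 (v1 i).2 := by
  have := IsCoprime.add_mul_left_right (Lu_coprime i) 1000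
  simp only [v1]
  rw [add_comm, mul_comm]
  exact this

theorem v2_coprime (i : ℕ) : IsCoprime (v2 i).1 (v2 i).2 := by
  have h0 : IsCoprime (Nat.fib i : ℤ) (Nat.fib (i + 1) : ℤ) :=
    Nat.isCoprime_iff_coprime.2 (Nat.fib_coprime_fib_succ i)
  have := IsCoprime.add_mul_left_right h0.neg_right 1001
  simp only [v2]
  have e : (1001 * Nat.fib i - Nat.fib (i + 1) : ℤ) = -Nat.fib (i + 1) + Nat.fib i * 1001 := by ring
  rw [e]
  exact this

theorem det_v (i : ℕ) : ((v1 i).1 * (v2 i).2 - (v2 i).1 * (v1 i).2 : ℝ) =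
    -((φ ^ i) ^ 2 + (ψ ^ i) ^ 2) := by
  have h5 := s5pos
  have h55 := s5
  simp only [v1, v2]
  push_cast
  rw [Lu_cast, Lu_cast, coe_fib_eq, coe_fib_eq, pow_succ, pow_succ]
  generalize φ ^ i = p
  generalize ψ ^ i = q
  rw [phi_def, psi_def]
  field_simp
  ring_nf

theorem det_v_ne (i : ℕ) : ((v1 i).1 * (v2 i).2 - (v2 i).1 * (v1 i).2 : ℝ) ≠ 0 := by
  rw [det_v]
  have : 0 < φ ^ i := by positivity
  nlinarith [sq_nonneg (ψ ^ i), mul_pos this this]

/-- the arrangement of the pair -/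
noncomputable def Rl (i : ℕ) : Arrangement := ofVec (v1 i) (v2 i) (det_v_ne i)

theorem Rl_rho (i : ℕ) (hi : 7 ≤ i) : R0.rho (Rl i) ≤ 4400 / ((φ ^ i) ^ 2 + (ψ ^ i) ^ 2) := by
  have h5 := s5pos
  have h55 := s5
  have a3 := psi_lo
  have a4 := psi_hi
  obtain ⟨r0, r1, r2⟩ := R0_coeff
  set p := φ ^ i with hp
  set q := ψ ^ i with hq
  have hp0 : 0 < p := by positivity
  have hpq : p * q = 1 ∨ p * q = -1 := by
    rw [hp, hq, ← mul_pow, goldenRatio_mul_goldenConj]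
    exact neg_one_pow_eq_or ℝ i
  have hq2 : q ^ 2 ≤ 0.00119 := by
    obtain ⟨r, rfl⟩ : ∃ r, i = 7 + r := ⟨i - 7, by omega⟩
    rw [hq, ← pow_mul, mul_comm, pow_mul, pow_add]
    have h1 : ψ ^ 2 ≤ 0.381986 := by nlinarith
    have h0 : 0 ≤ ψ ^ 2 := sq_nonneg _
    have h2 : (ψ ^ 2) ^ 7 ≤ 0.381986 ^ 7 := pow_le_pow_left₀ h0 h1 7
    have h3 : (ψ ^ 2) ^ r ≤ 1 := pow_le_one₀ h0 (by linarith)
    have h4 : (0.381986 : ℝ) ^ 7 ≤ 0.00119 := by norm_num
    have h6 : 0 ≤ (ψ ^ 2) ^ 7 := by positivity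
    nlinarith [pow_nonneg h0 r]
  have hq0 : 0 ≤ q ^ 2 := sq_nonneg q
  have hD : 0 < p ^ 2 + q ^ 2 := by positivity
  have hden : (Rl i).a₁ * (Rl i).b₂ - (Rl i).a₂ * (Rl i).b₁ = -(p ^ 2 + q ^ 2) := by
    rw [hp, hq, ← det_v]
    simp only [Rl, ofVec]
    ring
  -- numerators
  have x1 : ((v1 i).1 : ℝ) = p + q := by simp only [v1]; rw [Lu_cast]
  have x2 : ((v2 i).1 : ℝ) = (p - q) / √5 := by
    simp only [v2]; rw [Int.cast_natCast, coe_fib_eq]
  have y1 : ((v1 i).2 : ℝ) = (1000 + φ) * p + (1000 + ψ) * q := by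
    simp only [v1]; push_cast; rw [Lu_cast, Lu_cast, pow_succ, pow_succ]; ring
  have y2 : ((v2 i).2 : ℝ) = ((1000 + ψ) * p - (1000 + φ) * q) / √5 := by
    simp only [v2]; push_cast
    rw [coe_fib_eq, coe_fib_eq, pow_succ, pow_succ]
    have := one_sub_goldenRatio
    have := one_sub_goldenConj
    rw [← hp, ← hq]
    field_simp
    ring_nf
  have hPQ := PQ
  have hsum := goldenRatio_add_goldenConj
  have hdiff := goldenRatio_sub_goldenConj
  have hi5 : 1 / √5 ≤ 1 := by rw [div_le_one h5]; have := s5lo; linarith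
  have hi5' : 0 ≤ 1 / √5 := by positivity
  have ht1 : q ^ 2 * (1 / √5) ≤ 0.00119 * 1 := mul_le_mul hq2 hi5 hi5' (by norm_num)
  have ht0 : 0 ≤ q ^ 2 * (1 / √5) := mul_nonneg hq0 hi5'
  refine (min_le_right _ _).trans ?_
  apply max_le
  · have e : R0.coeff 0 - (Rl i).coeff 0 =
        (-(2 * 1000999 * q ^ 2 * (1 / √5)) - 2001 * (p * q)) / (p ^ 2 + q ^ 2) := by
      rw [r0]
      show _ - (Rl i).a₁ * (Rl i).a₂ / ((Rl i).a₁ * (Rl i).b₂ - (Rl i).a₂ * (Rl i).b₁) = _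
      rw [hden]
      simp only [Rl, ofVec]
      rw [y1, y2, hPQ, sub_eq_iff_eq_add]
      have e2 : ((1000 + φ) * p + (1000 + ψ) * q) * ((1000 + ψ) * p - (1000 + φ) * q)
          = 1000999 * (p ^ 2 - q ^ 2) - 2001 * √5 * (p * q) := by
        linear_combination (p ^ 2 - q ^ 2) * hPQ - (p * q * (φ - ψ)) * hsum
          - (2001 * (p * q)) * hdiff
      have e2' : ((1000 + φ) * p + (1000 + ψ) * q) * (((1000 + ψ) * p - (1000 + φ) * q) / √5)
          = (1000999 * (p ^ 2 - q ^ 2) - 2001 * √5 * (p * q)) / √5 := by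
        rw [← mul_div_assoc, e2]
      rw [e2']
      field_simp
      ring
    rw [e, abs_div, abs_of_pos hD]
    apply div_le_div_of_nonneg_right _ hD.le
    have e3 : 2 * 1000999 * q ^ 2 * (1 / √5) = 2001998 * (q ^ 2 * (1 / √5)) := by ring
    rw [e3, abs_le]
    rcases hpq with h | h <;> rw [h] <;> constructor <;> linarith
  · apply max_le
    · have e : R0.coeff 1 - (Rl i).coeff 1 =
          (4002 * q ^ 2 * (1 / √5) + 2 * (p * q)) / (p ^ 2 + q ^ 2) := by
        rw [r1]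
        show _ - ((Rl i).a₁ * (Rl i).b₂ + (Rl i).a₂ * (Rl i).b₁) /
          ((Rl i).a₁ * (Rl i).b₂ - (Rl i).a₂ * (Rl i).b₁) = _
        rw [hden]
        simp only [Rl, ofVec]
        rw [y1, y2, x1, x2, sub_eq_iff_eq_add]
        have e2 : ((1000 + φ) * p + (1000 + ψ) * q) * (-((p - q) / √5)) +
            ((1000 + ψ) * p - (1000 + φ) * q) / √5 * (-(p + q))
            = -((2001 * (p ^ 2 - q ^ 2) - 2 * √5 * (p * q)) / √5) := by
          field_simp
          linear_combination (-(p ^ 2 - q ^ 2)) * hsum + (2 * (p * q)) * hdiff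
        rw [e2]
        field_simp
        ring
      rw [e, abs_div, abs_of_pos hD]
      apply div_le_div_of_nonneg_right _ hD.le
      have e3 : 4002 * q ^ 2 * (1 / √5) = 4002 * (q ^ 2 * (1 / √5)) := by ring
      rw [e3, abs_le]
      rcases hpq with h | h <;> rw [h] <;> constructor <;> linarith
    · have e : R0.coeff 2 - (Rl i).coeff 2 =
          (-(2 * q ^ 2 * (1 / √5))) / (p ^ 2 + q ^ 2) := by
        rw [r2]
        show _ - (Rl i).b₁ * (Rl i).b₂ /
          ((Rl i).a₁ * (Rl i).b₂ - (Rl i).a₂ * (Rl i).b₁) = _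
        rw [hden]
        simp only [Rl, ofVec]
        rw [x1, x2, sub_eq_iff_eq_add]
        field_simp
        ring
      rw [e, abs_div, abs_of_pos hD]
      apply div_le_div_of_nonneg_right _ hD.le
      have e3 : 2 * q ^ 2 * (1 / √5) = 2 * (q ^ 2 * (1 / √5)) := by ring
      rw [e3, abs_le]
      constructor <;> linarith

theorem Rl_admissible (N i : ℕ) (hi : 1 ≤ i) (hN : (v1 i).2 ≤ N) :
    Admissible N (Rl i) (v1 i) (v2 i) := by
  refine ⟨v1_coprime i, v2_coprime i, ?_, ?_, ?_⟩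
  · show ((v1 i).2 : ℝ) * ((v1 i).1 : ℝ) + (-((v1 i).1 : ℝ)) * ((v1 i).2 : ℝ) = 0
    ring
  · show ((v2 i).2 : ℝ) * ((v2 i).1 : ℝ) + (-((v2 i).1 : ℝ)) * ((v2 i).2 : ℝ) = 0
    ring
  · have h1 : (Nat.fib i : ℤ) ≤ Nat.fib (i + 1) := by exact_mod_cast Nat.fib_le_fib_succ
    have h0 : (0 : ℤ) ≤ Nat.fib i := by positivity
    have h2 : (Nat.fib (i + 1) : ℤ) ≤ 2 * Nat.fib i := by
      obtain ⟨r, rfl⟩ : ∃ r, i = r + 1 := ⟨i - 1, by omega⟩
      rw [Nat.fib_add_two]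
      have : (Nat.fib r : ℤ) ≤ Nat.fib (r + 1) := by exact_mod_cast Nat.fib_le_fib_succ
      push_cast
      linarith
    simp only [v1, v2] at hN ⊢
    rw [Lu_succ] at hN ⊢
    rw [Lu] at hN ⊢
    rw [abs_of_nonneg (by linarith), abs_of_nonneg (by linarith), abs_of_nonneg (by linarith),
      abs_of_nonneg (by linarith)]
    apply max_le <;> apply max_le <;> linarith

/-- the size of a point of a sail bounds its index -/
theorem index_bound (i : ℕ) (k : ℤ) (h : |(e k).2| < 1000 * Lu (i + 1) + Lu (i + 2)) :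
    k.natAbs ≤ i + 3 := by
  by_contra hcon
  push Not at hcon
  have hk : k ≠ 0 := by rintro rfl; simp at hcon
  have h1 := (e_size k hk).2.1
  have h2 : Nat.fib (i + 4) ≤ Nat.fib k.natAbs := Nat.fib_mono (by omega)
  have h3 : (Nat.fib (i + 4) : ℤ) ≤ Nat.fib k.natAbs := by exact_mod_cast h2
  have h4 : (Nat.fib (i + 4) : ℤ) = 3 * Nat.fib (i + 1) + 2 * Nat.fib i := by
    have g2 : (Nat.fib (i + 2) : ℤ) = Nat.fib i + Nat.fib (i + 1) := by
      rw [Nat.fib_add_two]; push_cast; ring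
    have g3 : (Nat.fib (i + 3) : ℤ) = Nat.fib (i + 1) + Nat.fib (i + 2) := by
      rw [show i + 3 = (i + 1) + 2 by ring, Nat.fib_add_two]; push_cast; ring
    have g4 : (Nat.fib (i + 4) : ℤ) = Nat.fib (i + 2) + Nat.fib (i + 3) := by
      rw [show i + 4 = (i + 2) + 2 by ring, Nat.fib_add_two]; push_cast; ring
    linarith
  have h5 : (Nat.fib i : ℤ) ≤ Nat.fib (i + 1) := by exact_mod_cast Nat.fib_le_fib_succ
  have h6 : (0 : ℤ) ≤ Nat.fib i := by positivity
  rw [show i + 2 = (i + 1) + 1 by ring, Lu_succ, Lu_succ, Nat.fib_add_two] at h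
  push_cast at h
  linarith

/-- comparison of the two bounds -/
theorem compare (i : ℕ) (hi : 7 ≤ i) :
    4400 / ((φ ^ i) ^ 2 + (ψ ^ i) ^ 2) < 40000 / Nat.fib (2 * i + 6) := by
  have hp : 0 < φ ^ i := by positivity
  have hD : 0 < (φ ^ i) ^ 2 + (ψ ^ i) ^ 2 := by positivity
  have hF : (1 : ℝ) ≤ Nat.fib (2 * i + 6) := fib_pos' (by omega)
  have hL : (φ ^ i) ^ 2 + (ψ ^ i) ^ 2 = (Lu (2 * i) : ℝ) := by
    rw [Lu_cast, pow_mul', pow_mul']
  rw [div_lt_div_iff₀ hD (by linarith), hL]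
  have h4 : (Nat.fib (2 * i + 6) : ℤ) = 8 * Nat.fib (2 * i + 1) + 5 * Nat.fib (2 * i) := by
    generalize 2 * i = j
    have g2 : (Nat.fib (j + 2) : ℤ) = Nat.fib j + Nat.fib (j + 1) := by
      rw [Nat.fib_add_two]; push_cast; ring
    have g3 : (Nat.fib (j + 3) : ℤ) = Nat.fib (j + 1) + Nat.fib (j + 2) := by
      rw [show j + 3 = (j + 1) + 2 by ring, Nat.fib_add_two]; push_cast; ring
    have g4 : (Nat.fib (j + 4) : ℤ) = Nat.fib (j + 2) + Nat.fib (j + 3) := by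
      rw [show j + 4 = (j + 2) + 2 by ring, Nat.fib_add_two]; push_cast; ring
    have g5 : (Nat.fib (j + 5) : ℤ) = Nat.fib (j + 3) + Nat.fib (j + 4) := by
      rw [show j + 5 = (j + 3) + 2 by ring, Nat.fib_add_two]; push_cast; ring
    have g6 : (Nat.fib (j + 6) : ℤ) = Nat.fib (j + 4) + Nat.fib (j + 5) := by
      rw [show j + 6 = (j + 4) + 2 by ring, Nat.fib_add_two]; push_cast; ring
    linarith
  have h5 : 3 * (Nat.fib (2 * i) : ℤ) ≤ 2 * Nat.fib (2 * i + 1) := by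
    obtain ⟨r, hr⟩ : ∃ r, 2 * i = r + 2 := ⟨2 * i - 2, by omega⟩
    rw [hr]
    have g2 : (Nat.fib (r + 2) : ℤ) = Nat.fib r + Nat.fib (r + 1) := by
      rw [Nat.fib_add_two]; push_cast; ring
    have g3 : (Nat.fib (r + 2 + 1) : ℤ) = Nat.fib (r + 1) + Nat.fib (r + 2) := by
      rw [show r + 2 + 1 = (r + 1) + 2 by ring, Nat.fib_add_two]; push_cast; ring
    have g0 : (Nat.fib r : ℤ) ≤ Nat.fib (r + 1) := by exact_mod_cast Nat.fib_le_fib_succ
    linarith
  have h6 : (0 : ℤ) < Nat.fib (2 * i) := by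
    have : 0 < Nat.fib (2 * i) := Nat.fib_pos.2 (by omega)
    exact_mod_cast this
  have h7 : (4400 * (Nat.fib (2 * i + 6) : ℤ)) < 40000 * Lu (2 * i) := by
    rw [h4, Lu]
    linarith
  exact_mod_cast h7

/-- a best approximation exists. -/
theorem exists_best (R : Arrangement) (N : ℕ) (hN : 1 ≤ N) :
    ∃ R' v w, IsBest R N R' v w := by
  classical
  set T : Set ((ℤ × ℤ) × (ℤ × ℤ)) := {x | IsCoprime x.1.1 x.1.2 ∧ IsCoprime x.2.1 x.2.2 ∧
    (x.1.1 * x.2.2 - x.2.1 * x.1.2 : ℝ) ≠ 0 ∧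
    max (max |x.1.1| |x.1.2|) (max |x.2.1| |x.2.2|) ≤ N} with hT
  have hfin : T.Finite := by
    apply Set.Finite.subset (s := (((Set.Icc (-(N : ℤ)) N) ×ˢ (Set.Icc (-(N : ℤ)) N)) ×ˢ
      ((Set.Icc (-(N : ℤ)) N) ×ˢ (Set.Icc (-(N : ℤ)) N))))
    · exact ((Set.finite_Icc _ _).prod (Set.finite_Icc _ _)).prod
        ((Set.finite_Icc _ _).prod (Set.finite_Icc _ _))
    · rintro ⟨⟨a, b⟩, ⟨c, d⟩⟩ ⟨-, -, -, h⟩
      simp only [max_le_iff, abs_le] at h
      simp only [Set.mem_prod, Set.mem_Icc]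
      exact ⟨⟨h.1.1, h.1.2⟩, ⟨h.2.1, h.2.2⟩⟩
  have hne : T.Nonempty := by
    refine ⟨((1, 0), (0, 1)), isCoprime_one_left, isCoprime_one_right, by simp, ?_⟩
    simp
    exact_mod_cast hN
  -- the discrepancy as a function of the pair
  set g : (ℤ × ℤ) × (ℤ × ℤ) → ℝ := fun x =>
    if h : (x.1.1 * x.2.2 - x.2.1 * x.1.2 : ℝ) ≠ 0 then R.rho (ofVec x.1 x.2 h) else 0 with hg
  obtain ⟨⟨v, w⟩, ⟨hv, hw, hdet, hsz⟩, hmin⟩ := Set.exists_min_image T g hfin hne
  refine ⟨ofVec v w hdet, v, w, ⟨hv, hw, ?_, ?_, hsz⟩, ?_⟩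
  · show (v.2 : ℝ) * (v.1 : ℝ) + (-(v.1 : ℝ)) * (v.2 : ℝ) = 0
    ring
  · show (w.2 : ℝ) * (w.1 : ℝ) + (-(w.1 : ℝ)) * (w.2 : ℝ) = 0
    ring
  · intro R'' w₁ w₂ h
    obtain ⟨hne', k0, k1, k2⟩ := coeff_of_admissible h
    have hmem : (w₁, w₂) ∈ T := ⟨h.1, h.2.1, hne', h.2.2.2.2⟩
    have h1 := hmin _ hmem
    have e1 : g (v, w) = R.rho (ofVec v w hdet) := by simp only [hg]; rw [dif_pos hdet]
    have e2 : g (w₁, w₂) = R.rho (ofVec w₁ w₂ hne') := by simp only [hg]; rw [dif_pos hne']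
    rw [e1, e2] at h1
    refine h1.trans (le_of_eq ?_)
    have had : Admissible N (ofVec w₁ w₂ hne') w₁ w₂ := by
      refine ⟨h.1, h.2.1, ?_, ?_, h.2.2.2.2⟩
      · show (w₁.2 : ℝ) * (w₁.1 : ℝ) + (-(w₁.1 : ℝ)) * (w₁.2 : ℝ) = 0
        ring
      · show (w₂.2 : ℝ) * (w₂.1 : ℝ) + (-(w₂.1 : ℝ)) * (w₂.2 : ℝ) = 0
        ring
    obtain ⟨-, l0, l1, l2⟩ := coeff_of_admissible had
    simp only [Arrangement.rho]
    rw [k0, k1, k2, l0, l1, l2]

/-- signs do not matter -/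
theorem c0_signs (v w v' w' : ℤ × ℤ) (hv : v' = v ∨ v' = -v) (hw : w' = w ∨ w' = -w) :
    |c0 v' w'| = |c0 v w| := by
  rcases hv with rfl | rfl <;> rcases hw with rfl | rfl
  · rfl
  · simp only [abs_c0, Prod.fst_neg, Prod.snd_neg, Int.cast_neg, abs_neg]
    congr 1
    rw [← abs_neg]
    congr 1
    ring
  · simp only [abs_c0, Prod.fst_neg, Prod.snd_neg, Int.cast_neg, abs_neg]
    congr 1
    rw [← abs_neg]
    congr 1
    ring
  · simp only [abs_c0, Prod.fst_neg, Prod.snd_neg, Int.cast_neg, abs_neg]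
    congr 2
    ring

theorem main : ∃ N₀ : ℕ, ∀ N : ℕ, N₀ ≤ N →
    (∃ R' v w, IsBest R0 N R' v w) ∧
    ∀ R' v w, IsBest R0 N R' v w → emb v ∉ continuedFraction R0 ∨ emb w ∉ continuedFraction R0 := by
  refine ⟨((v1 7).2).toNat + 1, fun N hN => ⟨exists_best R0 N (by omega), ?_⟩⟩
  intro R' v w hbest
  by_contra hcon
  push Not at hcon
  obtain ⟨hcv, hcw⟩ := hcon
  -- the index
  have hex : ∃ j : ℕ, (N : ℤ) < (v1 (j + 1)).2 := by
    refine ⟨N + 2, ?_⟩
    simp only [v1]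
    rw [Lu_succ, Lu_succ]
    have h0 : (0 : ℤ) ≤ Nat.fib (N + 2) := by positivity
    have h1 : N + 3 ≤ Nat.fib (N + 2 + 1) + 1 := Nat.le_fib_add_one _
    have h2 : (N + 3 : ℤ) ≤ Nat.fib (N + 2 + 1) + 1 := by exact_mod_cast h1
    linarith [show (0 : ℤ) ≤ Nat.fib (N + 2 + 1) by positivity]
  classical
  set i := Nat.find hex with hi
  have hi1 : (N : ℤ) < (v1 (i + 1)).2 := Nat.find_spec hex
  have hmono : ∀ j, (v1 j).2 ≤ (v1 (j + 1)).2 ∨ j = 0 := by
    intro j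
    rcases Nat.eq_zero_or_pos j with h | h
    · exact Or.inr h
    · left
      simp only [v1]
      rw [Lu_succ (j + 1), Lu_succ, Lu, Nat.fib_add_two]
      have h1 : (Nat.fib j : ℤ) ≤ Nat.fib (j + 1) := by exact_mod_cast Nat.fib_le_fib_succ
      have h0 : (0 : ℤ) ≤ Nat.fib j := by positivity
      have h2 : (Nat.fib (j + 1) : ℤ) ≤ 2 * Nat.fib j := by
        obtain ⟨r, rfl⟩ : ∃ r, j = r + 1 := ⟨j - 1, by omega⟩
        rw [Nat.fib_add_two]
        have : (Nat.fib r : ℤ) ≤ Nat.fib (r + 1) := by exact_mod_cast Nat.fib_le_fib_succ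
        push_cast
        linarith
      push_cast
      linarith
  have hmono7 : ∀ j, j ≤ 7 → (v1 j).2 ≤ (v1 7).2 := by
    intro j hj
    interval_cases j <;> simp [v1, Lu] <;> norm_num [Nat.fib]
  have hi7 : 7 ≤ i := by
    by_contra hlt
    push Not at hlt
    have := hmono7 (i + 1) (by omega)
    omega
  have hi2 : (v1 i).2 ≤ N := by
    have h1 := Nat.find_min hex (m := i - 1) (by omega)
    rw [show i - 1 + 1 = i by omega] at h1
    exact not_lt.1 h1
  -- comparison with the Lucas pair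
  have h1 := hbest.2 (Rl i) (v1 i) (v2 i) (Rl_admissible N i (by omega) hi2)
  have h2 := Rl_rho i hi7
  have h3 := compare i hi7
  have h4 := rho_ge R'
  obtain ⟨hdet, k0, -, -⟩ := coeff_of_admissible hbest.1
  obtain ⟨hpv, hpw, -, -, hsz⟩ := hbest.1
  have nz : ∀ {u : ℤ × ℤ}, IsCoprime u.1 u.2 → emb u ≠ 0 := by
    intro u hu h0
    simp only [emb, Prod.mk_eq_zero] at h0
    have e1 : u.1 = 0 := by exact_mod_cast h0.1
    have e2 : u.2 = 0 := by exact_mod_cast h0.2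
    rw [e1, e2] at hu
    exact not_isCoprime_zero_zero hu
  obtain ⟨a, ha⟩ := on_sail (nz hpv) hcv
  obtain ⟨b, hb⟩ := on_sail (nz hpw) hcw
  have hk : |R'.coeff 0| = |c0 (e a) (e b)| := by
    rw [k0, ← c0_signs (e a) (e b) v w ha hb]
    rfl
  have hab : a ≠ b := by
    rintro rfl
    apply hdet
    rcases ha with rfl | rfl <;> rcases hb with rfl | rfl <;>
      (try simp only [Prod.fst_neg, Prod.snd_neg, Int.cast_neg]) <;> ring
  have h5 := low a b hab
  rw [hk] at h4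
  have size : ∀ {u : ℤ × ℤ} {c : ℤ}, (u = e c ∨ u = -e c) → |u.2| ≤ N → c.natAbs ≤ i + 3 := by
    intro u c hu hN'
    apply index_bound
    have : |u.2| = |(e c).2| := by
      rcases hu with rfl | rfl
      · rfl
      · rw [Prod.snd_neg, abs_neg]
    rw [← this]
    exact lt_of_le_of_lt hN' hi1
  have ha3 := size ha (le_trans (le_trans (le_max_right _ _) (le_max_left _ _)) hsz)
  have hb3 := size hb (le_trans (le_trans (le_max_right _ _) (le_max_right _ _)) hsz)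
  have hfib : (Nat.fib (a.natAbs + b.natAbs) : ℝ) ≤ Nat.fib (2 * i + 6) := by
    exact_mod_cast Nat.fib_mono (by omega)
  have hpos : (1 : ℝ) ≤ Nat.fib (a.natAbs + b.natAbs) := fib_pos' (by omega)
  have h6 : (40000 : ℝ) / Nat.fib (2 * i + 6) ≤ 40000 / Nat.fib (a.natAbs + b.natAbs) :=
    div_le_div_of_nonneg_left (by norm_num) (by linarith) hfib
  linarith

/-- the arrangement is algebraic -/
theorem R0_algebraic : Algebraic R0 := by
  refine ⟨!![-1000, 1; -1000999, 1001], ?_, ?_, φ, ψ, ?_, ?_, ?_⟩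
  · rw [Matrix.isUnit_iff_isUnit_det, Matrix.det_fin_two_of]
    norm_num
  · have hchar : (Matrix.charpoly !![(-1000 : ℤ), 1; -1000999, 1001]) =
        Polynomial.X ^ 2 - Polynomial.X - 1 := by
      rw [Matrix.charpoly_fin_two, Matrix.trace_fin_two_of, Matrix.det_fin_two_of]
      norm_num
      ring
    rw [hchar]
    have hmap : (Polynomial.X ^ 2 - Polynomial.X - 1 : Polynomial ℤ).map (Int.castRingHom ℚ) =
        Polynomial.X ^ 2 - Polynomial.X - 1 := by simp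
    rw [hmap]
    have hdeg : (Polynomial.X ^ 2 - Polynomial.X - 1 : Polynomial ℚ).natDegree = 2 := by
      compute_degree!
    rw [Polynomial.irreducible_iff_roots_eq_zero_of_degree_le_three (by rw [hdeg])
      (by rw [hdeg]; norm_num)]
    rw [Multiset.eq_zero_iff_forall_notMem]
    intro x hx
    rw [Polynomial.mem_roots', Polynomial.IsRoot.def] at hx
    have h := hx.2
    simp only [Polynomial.eval_sub, Polynomial.eval_pow, Polynomial.eval_X,
      Polynomial.eval_one] at h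
    have h5 : (2 * x - 1) ^ 2 = 5 := by linear_combination 4 * h
    have hirr : Irrational (√5) := by
      have := Nat.Prime.irrational_sqrt (p := 5) (by norm_num)
      exact_mod_cast this
    apply hirr
    refine ⟨|2 * x - 1|, ?_⟩
    have h6 : ((2 * x - 1 : ℚ) : ℝ) ^ 2 = 5 := by exact_mod_cast h5
    rw [← h6, Real.sqrt_sq_eq_abs]
    push_cast
    rfl
  · have h := goldenRatio_sub_goldenConj
    have h5 := s5pos
    intro h0
    rw [h0] at h
    linarith
  · intro p hp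
    have h1 : -(1000 + φ) * p.1 + 1 * p.2 = 0 := hp
    have h2 : p.2 = (1000 + φ) * p.1 := by linarith
    have h3 := goldenRatio_sq
    simp only [Matrix.of_apply, Matrix.cons_val', Matrix.cons_val_zero, Matrix.cons_val_one,
      Matrix.cons_val_fin_one, Prod.smul_def, smul_eq_mul, Prod.mk.injEq]
    push_cast
    rw [h2]
    constructor
    · ring
    · linear_combination (-p.1) * h3
  · intro p hp
    have h1 : -(1000 + ψ) * p.1 + 1 * p.2 = 0 := hp
    have h2 : p.2 = (1000 + ψ) * p.1 := by linarith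
    have h3 := goldenConj_sq
    simp only [Matrix.of_apply, Matrix.cons_val', Matrix.cons_val_zero, Matrix.cons_val_one,
      Matrix.cons_val_fin_one, Prod.smul_def, smul_eq_mul, Prod.mk.injEq]
    push_cast
    rw [h2]
    constructor
    · ring
    · linear_combination (-p.1) * h3

end Pool.Agent.X123.Sail
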