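import Pool.Agent.X123.Sail.Defs

/-!
# The golden arrangement sheared by `1000`, and the points of its sails
-/

namespace Pool.Agent.X123.Sail

open Real
open scoped goldenRatio

/-- the forms vanishing on the two lines -/
noncomputable def lam1 (p : ℝ × ℝ) : ℝ := p.2 - (1000 + φ) * p.1
noncomputable def lam2 (p : ℝ × ℝ) : ℝ := p.2 - (1000 + ψ) * p.1

/-- the arrangement -/
noncomputable def R0 : Arrangement where
  a₁ := -(1000 + φ)
  b₁ := 1
  a₂ := -(1000 + ψ)
  b₂ := 1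
  det_ne := by
    have h := goldenRatio_sub_goldenConj
    have h5 : 0 < √5 := by positivity
    intro h0
    nlinarith

theorem s5 : √5 * √5 = 5 := Real.mul_self_sqrt (by norm_num)
theorem s5pos : (0 : ℝ) < √5 := by positivity
theorem s5lo : (2.236 : ℝ) < √5 := by
  rw [show (2.236 : ℝ) = √(2.236 ^ 2) by rw [Real.sqrt_sq]; norm_num]
  exact Real.sqrt_lt_sqrt (by norm_num) (by norm_num)
theorem s5hi : √5 < 2.2361 := by
  rw [show (2.2361 : ℝ) = √(2.2361 ^ 2) by rw [Real.sqrt_sq]; norm_num]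
  exact Real.sqrt_lt_sqrt (by norm_num) (by norm_num)
theorem phi_def : φ = (1 + √5) / 2 := rfl
theorem psi_def : ψ = (1 - √5) / 2 := rfl

/-- the integer points of the sails, up to sign -/
def e (k : ℤ) : ℤ × ℤ := (Int.fib k, Int.fib (k + 1) + 1000 * Int.fib k)

theorem lam1_e (k : ℤ) : lam1 (emb (e k)) = ψ ^ k := by
  simp only [lam1, emb, e]
  push_cast
  rw [coe_intFib_eq, coe_intFib_eq, zpow_add_one₀ goldenRatio_ne_zero,
    zpow_add_one₀ goldenConj_ne_zero]
  have h := s5pos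
  field_simp
  have h2 := goldenRatio_sub_goldenConj
  linear_combination ψ ^ k * h2

theorem lam2_e (k : ℤ) : lam2 (emb (e k)) = φ ^ k := by
  simp only [lam2, emb, e]
  push_cast
  rw [coe_intFib_eq, coe_intFib_eq, zpow_add_one₀ goldenRatio_ne_zero,
    zpow_add_one₀ goldenConj_ne_zero]
  have h := s5pos
  field_simp
  have h2 := goldenRatio_sub_goldenConj
  linear_combination φ ^ k * h2

theorem lam_ext {p q : ℝ × ℝ} (h1 : lam1 p = lam1 q) (h2 : lam2 p = lam2 q) : p = q := by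
  simp only [lam1, lam2] at h1 h2
  have h := goldenRatio_sub_goldenConj
  have h5 := s5pos
  have hx : p.1 = q.1 := by
    have : √5 * (p.1 - q.1) = 0 := by
      rw [← h]; linear_combination h2 - h1
    rcases mul_eq_zero.1 this with h | h
    · linarith
    · linarith
  refine Prod.ext hx ?_
  rw [hx] at h1
  linarith

theorem lam1_add (p q : ℝ × ℝ) : lam1 (p + q) = lam1 p + lam1 q := by
  simp only [lam1, Prod.fst_add, Prod.snd_add]; ring
theorem lam2_add (p q : ℝ × ℝ) : lam2 (p + q) = lam2 p + lam2 q := by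
  simp only [lam2, Prod.fst_add, Prod.snd_add]; ring
theorem lam1_smul (c : ℝ) (p : ℝ × ℝ) : lam1 (c • p) = c * lam1 p := by
  simp only [lam1, Prod.smul_fst, Prod.smul_snd, smul_eq_mul]; ring
theorem lam2_smul (c : ℝ) (p : ℝ × ℝ) : lam2 (c • p) = c * lam2 p := by
  simp only [lam2, Prod.smul_fst, Prod.smul_snd, smul_eq_mul]; ring

theorem psi_zpow (k : ℤ) : ψ ^ k = (-1) ^ k * (φ ^ k)⁻¹ := by
  have h : ψ = -φ⁻¹ := by rw [inv_goldenRatio]; ring
  rw [h, neg_eq_neg_one_mul, mul_zpow, inv_zpow]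

/-- the angle between consecutive points of a sail containing a given vector -/
theorem cone (d : ℝ × ℝ) (h1 : lam1 d ≠ 0) (h2 : lam2 d ≠ 0) :
    ∃ (k : ℤ) (ε : ℝ), (ε = 1 ∨ ε = -1) ∧ 0 < ε * lam2 d ∧ 0 < ε * (-1) ^ k * lam1 d ∧
      0 ≤ ε * (-1) ^ k * (φ ^ (k + 2) * lam1 d - ψ ^ (k + 2) * lam2 d) ∧
      0 ≤ ε * (-1) ^ k * (ψ ^ k * lam2 d - φ ^ k * lam1 d) := by
  -- choose signs
  obtain ⟨ε, hε, hε2⟩ : ∃ ε : ℝ, (ε = 1 ∨ ε = -1) ∧ 0 < ε * lam2 d := by
    rcases lt_or_gt_of_ne h2 with h | h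
    · exact ⟨-1, Or.inr rfl, by linarith⟩
    · exact ⟨1, Or.inl rfl, by linarith⟩
  obtain ⟨r, hr, hr1⟩ : ∃ r : ℤ, (r = 0 ∨ r = 1) ∧ 0 < ε * (-1) ^ r * lam1 d := by
    have hne : ε * lam1 d ≠ 0 := by
      rcases hε with rfl | rfl
      · simpa using h1
      · simpa using h1
    rcases lt_or_gt_of_ne hne with h | h
    · exact ⟨1, Or.inr rfl, by rw [zpow_one]; linarith⟩
    · exact ⟨0, Or.inl rfl, by rw [zpow_zero]; linarith⟩
  set A := ε * (-1) ^ r * lam1 d with hA
  set B := ε * lam2 d with hB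
  have hφ : 1 < φ := one_lt_goldenRatio
  have hφ0 : 0 < φ := goldenRatio_pos
  -- locate the ratio
  obtain ⟨n, hn1, hn2⟩ := exists_mem_Ico_zpow (x := B / A * (φ ^ (2 * r))⁻¹) (y := φ ^ 4)
    (by positivity) (one_lt_pow₀ hφ (by norm_num))
  set k : ℤ := 2 * n + r with hk
  have hsign : ((-1 : ℝ)) ^ k = (-1) ^ r := by
    rw [hk, zpow_add₀ (by norm_num), zpow_mul]
    norm_num
  have hφk : 0 < φ ^ k := by positivity
  have e1 : (φ ^ 4) ^ n * φ ^ (2 * r) = φ ^ (2 * k) := by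
    rw [← zpow_natCast, ← zpow_mul, ← zpow_add₀ hφ0.ne']
    congr 1
    push_cast
    rw [hk]; ring
  have e2 : (φ ^ 4) ^ (n + 1) * φ ^ (2 * r) = φ ^ (2 * k + 4) := by
    rw [← zpow_natCast, ← zpow_mul, ← zpow_add₀ hφ0.ne']
    congr 1
    push_cast
    rw [hk]; ring
  have hp : 0 < φ ^ (2 * r) := by positivity
  have l1 : φ ^ (2 * k) * A ≤ B := by
    rw [← e1]
    have := mul_le_mul_of_nonneg_right hn1 hp.le
    rw [mul_assoc (B / A), inv_mul_cancel₀ hp.ne', mul_one, le_div_iff₀ hr1] at this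
    exact this
  have l2 : B ≤ φ ^ (2 * k + 4) * A := by
    rw [← e2]
    have := mul_le_mul_of_nonneg_right hn2.le hp.le
    rw [mul_assoc (B / A), inv_mul_cancel₀ hp.ne', mul_one, div_le_iff₀ hr1] at this
    exact this
  refine ⟨k, ε, hε, hε2, by rw [hsign]; exact hr1, ?_, ?_⟩
  · have e3 : ε * (-1) ^ k * (φ ^ (k + 2) * lam1 d - ψ ^ (k + 2) * lam2 d)
        = φ ^ (k + 2) * A - (φ ^ (k + 2))⁻¹ * B := by
      rw [psi_zpow, hA, hB, hsign]
      have : ((-1 : ℝ)) ^ (k + 2) = (-1) ^ r := by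
        rw [zpow_add₀ (by norm_num), hsign]; norm_num
      rw [this]
      have h11 : ((-1 : ℝ) ^ r) * (-1) ^ r = 1 := by
        rcases hr with rfl | rfl <;> norm_num
      linear_combination (-(ε * (φ ^ (k + 2))⁻¹ * lam2 d)) * h11
    rw [e3, sub_nonneg]
    have h3 : 0 < φ ^ (k + 2) := by positivity
    rw [inv_mul_le_iff₀ h3]
    refine l2.trans (le_of_eq ?_)
    rw [← mul_assoc (φ ^ (k + 2)), ← zpow_add₀ hφ0.ne']
    congr 2
    ring
  · have e3 : ε * (-1) ^ k * (ψ ^ k * lam2 d - φ ^ k * lam1 d)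
        = (φ ^ k)⁻¹ * B - φ ^ k * A := by
      rw [psi_zpow, hA, hB, hsign]
      have h11 : ((-1 : ℝ) ^ r) * (-1) ^ r = 1 := by
        rcases hr with rfl | rfl <;> norm_num
      linear_combination (ε * (φ ^ k)⁻¹ * lam2 d) * h11
    rw [e3, sub_nonneg, le_inv_mul_iff₀ hφk]
    refine le_trans (le_of_eq ?_) l1
    rw [← mul_assoc, ← zpow_add₀ hφ0.ne']
    congr 2
    ring

/-- nonzero integer points of an angle -/
def S (s t : ℝ) : Set (ℝ × ℝ) := {p | p ∈ R0.angle s t ∧ p ≠ 0 ∧ ∃ v : ℤ × ℤ, p = emb v}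

theorem mem_angle (s t : ℝ) (p : ℝ × ℝ) :
    p ∈ R0.angle s t ↔ 0 ≤ s * lam1 p ∧ 0 ≤ t * lam2 p := by
  simp only [Arrangement.angle, R0, lam1, lam2, Set.mem_ofPred_eq]
  have e1 : s * (-(1000 + φ) * p.1 + 1 * p.2) = s * (p.2 - (1000 + φ) * p.1) := by ring
  have e2 : t * (-(1000 + ψ) * p.1 + 1 * p.2) = t * (p.2 - (1000 + ψ) * p.1) := by ring
  rw [e1, e2]

theorem emb_add (u v : ℤ × ℤ) : emb u + emb v = emb (u + v) := by
  simp [emb]

theorem lam1_ne {v : ℤ × ℤ} (hv : emb v ≠ 0) : lam1 (emb v) ≠ 0 := by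
  intro h
  simp only [lam1, emb] at h
  rcases eq_or_ne v.1 0 with h0 | h0
  · rw [h0] at h
    simp at h
    exact hv (by simp [emb, h0, h])
  · have hx : (v.1 : ℝ) ≠ 0 := by exact_mod_cast h0
    apply goldenRatio_irrational
    refine ⟨(v.2 : ℚ) / v.1 - 1000, ?_⟩
    push_cast
    rw [sub_eq_iff_eq_add, div_eq_iff hx]
    linarith

theorem lam2_ne {v : ℤ × ℤ} (hv : emb v ≠ 0) : lam2 (emb v) ≠ 0 := by
  intro h
  simp only [lam2, emb] at h
  rcases eq_or_ne v.1 0 with h0 | h0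
  · rw [h0] at h
    simp at h
    exact hv (by simp [emb, h0, h])
  · have hx : (v.1 : ℝ) ≠ 0 := by exact_mod_cast h0
    apply goldenConj_irrational
    refine ⟨(v.2 : ℚ) / v.1 - 1000, ?_⟩
    push_cast
    rw [sub_eq_iff_eq_add, div_eq_iff hx]
    linarith

theorem S_add {s t : ℝ} (hs : s ≠ 0) {p q : ℝ × ℝ} (hp : p ∈ S s t) (hq : q ∈ S s t) :
    p + q ∈ S s t := by
  obtain ⟨hp1, hp0, u, rfl⟩ := hp
  obtain ⟨hq1, hq0, v, rfl⟩ := hq
  rw [mem_angle] at hp1 hq1
  have h1 : 0 ≤ s * lam1 (emb u + emb v) := by rw [lam1_add, mul_add]; linarith [hp1.1, hq1.1]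
  have h2 : 0 ≤ t * lam2 (emb u + emb v) := by rw [lam2_add, mul_add]; linarith [hp1.2, hq1.2]
  refine ⟨(mem_angle _ _ _).2 ⟨h1, h2⟩, ?_, u + v, emb_add u v⟩
  intro h0
  have h3 : s * lam1 (emb u) + s * lam1 (emb v) = 0 := by
    rw [← mul_add, ← lam1_add, h0]; simp [lam1]
  have h4 : s * lam1 (emb u) = 0 := by linarith [hp1.1, hq1.1]
  rcases mul_eq_zero.1 h4 with h | h
  · exact hs h
  · exact lam1_ne hp0 h

theorem hull_add {s t : ℝ} (hs : s ≠ 0) {p z : ℝ × ℝ} (hp : p ∈ convexHull ℝ (S s t))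
    (hz : z ∈ S s t) : p + z ∈ convexHull ℝ (S s t) := by
  have h : convexHull ℝ (S s t) ⊆ {q | q + z ∈ convexHull ℝ (S s t)} := by
    apply convexHull_min
    · intro q hq
      exact subset_convexHull ℝ _ (S_add hs hq hz)
    · intro x hx y hy a b ha hb hab
      show a • x + b • y + z ∈ convexHull ℝ (S s t)
      have : a • x + b • y + z = a • (x + z) + b • (y + z) := by
        rw [smul_add, smul_add]
        have : z = (a + b) • z := by rw [hab, one_smul]
        nth_rewrite 1 [this]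
        rw [add_smul]
        abel
      rw [this]
      exact convex_convexHull ℝ _ hx hy ha hb hab
  exact h hp

theorem hull_add_nsmul {s t : ℝ} (hs : s ≠ 0) {p z : ℝ × ℝ} (hp : p ∈ convexHull ℝ (S s t))
    (hz : z ∈ S s t) (n : ℕ) : p + n • z ∈ convexHull ℝ (S s t) := by
  induction n with
  | zero => simpa using hp
  | succ n ih =>
    rw [succ_nsmul, ← add_assoc]
    exact hull_add hs ih hz

theorem hull_add_smul {s t : ℝ} (hs : s ≠ 0) {p z : ℝ × ℝ} (hp : p ∈ convexHull ℝ (S s t))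
    (hz : z ∈ S s t) {c : ℝ} (hc : 0 ≤ c) : p + c • z ∈ convexHull ℝ (S s t) := by
  set n : ℕ := ⌈c⌉₊ + 1 with hn
  have hn0 : (0 : ℝ) < n := by positivity
  have hcn : c ≤ n := by
    have := Nat.le_ceil c
    rw [hn]; push_cast; linarith
  have h := hull_add_nsmul hs hp hz n
  have e : p + c • z = (1 - c / n) • p + (c / n) • (p + n • z) := by
    rw [smul_add, ← Nat.cast_smul_eq_nsmul ℝ n z, smul_smul, div_mul_cancel₀ _ hn0.ne',
      ← add_assoc, ← add_smul]
    simp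
  rw [e]
  exact convex_convexHull ℝ _ hp h (by
    rw [sub_nonneg, div_le_one hn0]; exact hcn) (by positivity) (by ring)

/-- the decomposition of a vector along two consecutive points of a sail -/
theorem decomp (d : ℝ × ℝ) (k : ℤ) :
    d = (((-1) ^ k * (φ ^ (k + 2) * lam1 d - ψ ^ (k + 2) * lam2 d)) / √5) • emb (e k) +
      (((-1) ^ k * (ψ ^ k * lam2 d - φ ^ k * lam1 d)) / √5) • emb (e (k + 2)) := by
  have h5 := s5pos
  have hpq : φ ^ k * ψ ^ k = (-1) ^ k := by
    rw [← mul_zpow, goldenRatio_mul_goldenConj]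
  have h11 : ((-1 : ℝ) ^ k) * (-1) ^ k = 1 := by
    rw [← mul_zpow]; norm_num
  have hd := goldenRatio_sub_goldenConj
  have hφ2 : φ ^ (k + 2) = φ ^ k * (φ + 1) := by
    rw [zpow_add₀ goldenRatio_ne_zero, ← goldenRatio_sq]; rfl
  have hψ2 : ψ ^ (k + 2) = ψ ^ k * (ψ + 1) := by
    rw [zpow_add₀ goldenConj_ne_zero, ← goldenConj_sq]; rfl
  apply lam_ext
  · rw [lam1_add, lam1_smul, lam1_smul, lam1_e, lam1_e, hφ2, hψ2]
    generalize φ ^ k = a at hpq
    generalize ψ ^ k = b at hpq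
    generalize ((-1 : ℝ)) ^ k = σ at hpq h11
    generalize lam1 d = L1
    generalize lam2 d = L2
    field_simp
    linear_combination (-2 * σ * √5 * L1) * hpq - (2 * √5 * L1) * h11
  · rw [lam2_add, lam2_smul, lam2_smul, lam2_e, lam2_e, hφ2, hψ2]
    generalize φ ^ k = a at hpq
    generalize ψ ^ k = b at hpq
    generalize ((-1 : ℝ)) ^ k = σ at hpq h11
    generalize lam1 d = L1
    generalize lam2 d = L2
    field_simp
    linear_combination (-2 * σ * √5 * L2) * hpq - (2 * √5 * L2) * h11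

theorem neg_emb (v : ℤ × ℤ) : -emb v = emb (-v) := by simp [emb]

theorem e_ne (k : ℤ) : emb (e k) ≠ 0 := by
  intro h
  have h1 := lam2_e k
  rw [h] at h1
  have : (0 : ℝ) < φ ^ k := by have := goldenRatio_pos; positivity
  simp [lam2] at h1
  linarith

/-- consecutive points of a sail lie in the same angle as the vectors between them -/
theorem e_mem {s t : ℝ} {d : ℝ × ℝ}
    (hd1 : 0 < s * lam1 d) (hd2 : 0 < t * lam2 d) {k : ℤ} {ε : ℝ} (hε : ε = 1 ∨ ε = -1)
    (h1 : 0 < ε * lam2 d) (h2 : 0 < ε * (-1) ^ k * lam1 d) :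
    ε • emb (e k) ∈ S s t ∧ ε • emb (e (k + 2)) ∈ S s t := by
  have hφ := goldenRatio_pos
  have key : ∀ j : ℤ, ((-1 : ℝ)) ^ j = (-1) ^ k → ε • emb (e j) ∈ S s t := by
    intro j hj
    refine ⟨?_, ?_, ?_⟩
    · rw [mem_angle, lam1_smul, lam2_smul, lam1_e, lam2_e, psi_zpow, hj]
      have hp : 0 < φ ^ j := by positivity
      constructor
      · -- s and ε (-1)^k have the same sign
        have h3 : 0 < s * (ε * (-1) ^ k) := by
          have h4 : 0 < (s * lam1 d) * (ε * (-1) ^ k * lam1 d) := mul_pos hd1 h2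
          have h5 : (s * lam1 d) * (ε * (-1) ^ k * lam1 d) = s * (ε * (-1) ^ k) * lam1 d ^ 2 := by
            ring
          rw [h5] at h4
          exact pos_of_mul_pos_left h4 (sq_nonneg _)
        have : s * (ε * ((-1) ^ k * (φ ^ j)⁻¹)) = s * (ε * (-1) ^ k) * (φ ^ j)⁻¹ := by ring
        rw [this]
        positivity
      · have h3 : 0 < t * ε := by
          have h4 : 0 < (t * lam2 d) * (ε * lam2 d) := mul_pos hd2 h1
          have h5 : (t * lam2 d) * (ε * lam2 d) = t * ε * lam2 d ^ 2 := by ring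
          rw [h5] at h4
          exact pos_of_mul_pos_left h4 (sq_nonneg _)
        rw [← mul_assoc]
        positivity
    · rcases hε with rfl | rfl
      · rw [one_smul]; exact e_ne j
      · rw [neg_one_smul, neg_ne_zero]; exact e_ne j
    · rcases hε with rfl | rfl
      · exact ⟨e j, by rw [one_smul]⟩
      · exact ⟨-e j, by rw [neg_one_smul, neg_emb]⟩
  refine ⟨key k rfl, key (k + 2) ?_⟩
  rw [zpow_add₀ (by norm_num)]
  norm_num

/-- `K + int C ⊆ K` -/
theorem hull_add_cone {s t : ℝ} (hs : s = 1 ∨ s = -1) (ht : t = 1 ∨ t = -1) {p d : ℝ × ℝ}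
    (hp : p ∈ convexHull ℝ (S s t)) (hd1 : 0 < s * lam1 d) (hd2 : 0 < t * lam2 d) :
    p + d ∈ convexHull ℝ (S s t) := by
  have hs0 : s ≠ 0 := by rcases hs with rfl | rfl <;> norm_num
  have ht0 : t ≠ 0 := by rcases ht with rfl | rfl <;> norm_num
  have hl1 : lam1 d ≠ 0 := fun h => by rw [h, mul_zero] at hd1; exact lt_irrefl _ hd1
  have hl2 : lam2 d ≠ 0 := fun h => by rw [h, mul_zero] at hd2; exact lt_irrefl _ hd2
  obtain ⟨k, ε, hε, h1, h2, h3, h4⟩ := cone d hl1 hl2
  obtain ⟨m1, m2⟩ := e_mem hd1 hd2 hε h1 h2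
  have h5 := s5pos
  have hε2 : ε * ε = 1 := by rcases hε with rfl | rfl <;> norm_num
  have e1 : d = (ε * (-1) ^ k * (φ ^ (k + 2) * lam1 d - ψ ^ (k + 2) * lam2 d) / √5) •
      (ε • emb (e k)) + (ε * (-1) ^ k * (ψ ^ k * lam2 d - φ ^ k * lam1 d) / √5) •
      (ε • emb (e (k + 2))) := by
    rw [smul_smul, smul_smul]
    conv_lhs => rw [decomp d k]
    congr 2
    · rw [div_mul_eq_mul_div]
      congr 1
      linear_combination (-((-1) ^ k * (φ ^ (k + 2) * lam1 d - ψ ^ (k + 2) * lam2 d))) * hε2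
    · rw [div_mul_eq_mul_div]
      congr 1
      linear_combination (-((-1) ^ k * (ψ ^ k * lam2 d - φ ^ k * lam1 d))) * hε2
  rw [e1, ← add_assoc]
  exact hull_add_smul hs0 (hull_add_smul hs0 hp m1 (by positivity)) m2 (by positivity)

/-- a sum of two nonzero integer points of an angle is an interior point of the hull -/
theorem interior_of_sum {s t : ℝ} (hs : s = 1 ∨ s = -1) (ht : t = 1 ∨ t = -1) {u v : ℝ × ℝ}
    (hu : u ∈ S s t) (hv : v ∈ S s t) : u + v ∈ interior (convexHull ℝ (S s t)) := by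
  have hs0 : s ≠ 0 := by rcases hs with rfl | rfl <;> norm_num
  have ht0 : t ≠ 0 := by rcases ht with rfl | rfl <;> norm_num
  set p : ℝ × ℝ := (1 / 2 : ℝ) • u + (1 / 2 : ℝ) • v with hp
  have hpK : p ∈ convexHull ℝ (S s t) :=
    convex_convexHull ℝ _ (subset_convexHull ℝ _ hu) (subset_convexHull ℝ _ hv)
      (by norm_num) (by norm_num) (by norm_num)
  have hpos : ∀ {w : ℝ × ℝ}, w ∈ S s t → 0 < s * lam1 w ∧ 0 < t * lam2 w := by
    rintro _ ⟨hw, hw0, w, rfl⟩
    rw [mem_angle] at hw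
    exact ⟨lt_of_le_of_ne hw.1 (mul_ne_zero hs0 (lam1_ne hw0)).symm,
      lt_of_le_of_ne hw.2 (mul_ne_zero ht0 (lam2_ne hw0)).symm⟩
  rw [mem_interior]
  refine ⟨{x | 0 < s * lam1 (x - p) ∧ 0 < t * lam2 (x - p)}, ?_, ?_, ?_⟩
  · rintro x ⟨hx1, hx2⟩
    have := hull_add_cone hs ht hpK hx1 hx2
    rwa [add_sub_cancel] at this
  · apply IsOpen.and
    · apply isOpen_lt continuous_const
      simp only [lam1]
      fun_prop
    · apply isOpen_lt continuous_const
      simp only [lam2]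
      fun_prop
  · have e1 : u + v - p = (1 / 2 : ℝ) • u + (1 / 2 : ℝ) • v := by
      rw [hp]
      have : ∀ w : ℝ × ℝ, w = (1 / 2 : ℝ) • w + (1 / 2 : ℝ) • w := by
        intro w; rw [← add_smul]; norm_num
      nth_rewrite 1 [this u, this v]
      abel
    obtain ⟨a1, a2⟩ := hpos hu
    obtain ⟨b1, b2⟩ := hpos hv
    constructor
    · rw [e1, lam1_add, lam1_smul, lam1_smul]
      linarith
    · rw [e1, lam2_add, lam2_smul, lam2_smul]
      linarith

/-- the hull is contained in the angle -/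
theorem closure_hull {s t : ℝ} {p : ℝ × ℝ} (hp : p ∈ closure (convexHull ℝ (S s t))) :
    0 ≤ s * lam1 p ∧ 0 ≤ t * lam2 p := by
  have hcl : IsClosed {p : ℝ × ℝ | 0 ≤ s * lam1 p ∧ 0 ≤ t * lam2 p} := by
    apply IsClosed.and
    · apply isClosed_le continuous_const
      simp only [lam1]
      fun_prop
    · apply isClosed_le continuous_const
      simp only [lam2]
      fun_prop
  have hsub : convexHull ℝ (S s t) ⊆ {p : ℝ × ℝ | 0 ≤ s * lam1 p ∧ 0 ≤ t * lam2 p} := by
    apply convexHull_min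
    · intro q hq
      exact (mem_angle _ _ _).1 hq.1
    · rintro x ⟨hx1, hx2⟩ y ⟨hy1, hy2⟩ a b ha hb hab
      constructor
      · rw [lam1_add, lam1_smul, lam1_smul]
        nlinarith [mul_nonneg ha hx1, mul_nonneg hb hy1]
      · rw [lam2_add, lam2_smul, lam2_smul]
        nlinarith [mul_nonneg ha hx2, mul_nonneg hb hy2]
  exact closure_minimal hsub hcl hp

/-- the coefficients of the decomposition of an integer vector are integers -/
theorem int_coeff (v : ℤ × ℤ) (k : ℤ) :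
    ∃ A B : ℤ, (((-1) ^ k * (φ ^ (k + 2) * lam1 (emb v) - ψ ^ (k + 2) * lam2 (emb v))) / √5) = A ∧
      (((-1) ^ k * (ψ ^ k * lam2 (emb v) - φ ^ k * lam1 (emb v))) / √5) = B := by
  have h5 := s5pos
  have hd := goldenRatio_sub_goldenConj
  have hsgn : ∃ σ : ℤ, ((-1 : ℝ)) ^ k = σ := by
    rcases Int.even_or_odd k with h | h
    · exact ⟨1, by rw [h.neg_one_zpow]; simp⟩
    · exact ⟨-1, by rw [h.neg_one_zpow]; simp⟩
  obtain ⟨σ, hσ⟩ := hsgn
  refine ⟨σ * ((e (k + 2)).1 * v.2 - (e (k + 2)).2 * v.1), σ * ((e k).2 * v.1 - (e k).1 * v.2),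
    ?_, ?_⟩
  · rw [← lam1_e, ← lam2_e, hσ, div_eq_iff h5.ne', ← hd]
    simp only [lam1, lam2, emb]
    push_cast
    ring
  · rw [← lam1_e, ← lam2_e, hσ, div_eq_iff h5.ne', ← hd]
    simp only [lam1, lam2, emb]
    push_cast
    ring

/-- **Integer points of the sails.** -/
theorem on_sail {v : ℤ × ℤ} (hv0 : emb v ≠ 0) (hv : emb v ∈ continuedFraction R0) :
    ∃ k : ℤ, v = e k ∨ v = -e k := by
  obtain ⟨s, t, hs, ht, hv⟩ := hv
  have hs0 : s ≠ 0 := by rcases hs with rfl | rfl <;> norm_num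
  have ht0 : t ≠ 0 := by rcases ht with rfl | rfl <;> norm_num
  have hS : {p | p ∈ R0.angle s t ∧ p ≠ 0 ∧ ∃ v : ℤ × ℤ, p = emb v} = S s t := rfl
  rw [sail, hS, frontier] at hv
  obtain ⟨hcl, hint⟩ := hv
  obtain ⟨c1, c2⟩ := closure_hull hcl
  have hl1 := lam1_ne hv0
  have hl2 := lam2_ne hv0
  have hd1 : 0 < s * lam1 (emb v) := lt_of_le_of_ne c1 (mul_ne_zero hs0 hl1).symm
  have hd2 : 0 < t * lam2 (emb v) := lt_of_le_of_ne c2 (mul_ne_zero ht0 hl2).symm
  obtain ⟨k, ε, hε, h1, h2, h3, h4⟩ := cone (emb v) hl1 hl2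
  obtain ⟨m1, m2⟩ := e_mem hd1 hd2 hε h1 h2
  have h5 := s5pos
  obtain ⟨A, B, hA, hB⟩ := int_coeff v k
  have hdec := decomp (emb v) k
  rw [hA, hB] at hdec
  -- reduce to nonnegative coefficients along `ε e`
  obtain ⟨δ, hδ⟩ : ∃ δ : ℤ, (δ : ℝ) = ε ∧ (δ = 1 ∨ δ = -1) := by
    rcases hε with rfl | rfl
    · exact ⟨1, by simp, Or.inl rfl⟩
    · exact ⟨-1, by simp, Or.inr rfl⟩
  obtain ⟨hδ1, hδ2⟩ := hδ
  have hδδ : δ * δ = 1 := by rcases hδ2 with rfl | rfl <;> norm_num
  have hA0 : 0 ≤ δ * A := by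
    have : (0 : ℝ) ≤ (δ : ℝ) * A := by
      rw [← hA, hδ1, mul_div_assoc', ← mul_assoc]
      positivity
    exact_mod_cast this
  have hB0 : 0 ≤ δ * B := by
    have : (0 : ℝ) ≤ (δ : ℝ) * B := by
      rw [← hB, hδ1, mul_div_assoc', ← mul_assoc]
      positivity
    exact_mod_cast this
  obtain ⟨a, ha⟩ := Int.eq_ofNat_of_zero_le hA0
  obtain ⟨b, hb⟩ := Int.eq_ofNat_of_zero_le hB0
  have hAa : (A : ℝ) = a * ε := by
    rw [← hδ1]
    have : A = a * δ := by rw [← ha]; linear_combination (-A) * hδδ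
    exact_mod_cast this
  have hBb : (B : ℝ) = b * ε := by
    rw [← hδ1]
    have : B = b * δ := by rw [← hb]; linear_combination (-B) * hδδ
    exact_mod_cast this
  rw [hAa, hBb, mul_smul, mul_smul, Nat.cast_smul_eq_nsmul, Nat.cast_smul_eq_nsmul] at hdec
  set x := ε • emb (e k) with hx
  set y := ε • emb (e (k + 2)) with hy
  have hsum : ∀ (i j : ℕ), 0 < i + j → i • x + j • y ∈ S s t := by
    intro i
    induction i with
    | zero =>
      intro j
      induction j with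
      | zero => intro h; omega
      | succ j ih =>
        intro _
        rcases Nat.eq_zero_or_pos j with rfl | hj
        · simpa using m2
        · have := S_add hs0 (ih (by omega)) m2
          rw [succ_nsmul, ← add_assoc]
          exact this
    | succ i ih =>
      intro j _
      rcases Nat.eq_zero_or_pos (i + j) with h0 | h0
      · have hi : i = 0 := by omega
        have hj : j = 0 := by omega
        subst hi; subst hj
        simpa using m1
      · have := S_add hs0 m1 (ih j h0)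
        rw [succ_nsmul', add_assoc]
        exact this
  have hfin : ∀ (j : ℤ), emb v = ε • emb (e j) → ∃ k : ℤ, v = e k ∨ v = -e k := by
    intro j h
    refine ⟨j, ?_⟩
    have inj : ∀ p q : ℤ × ℤ, emb p = emb q → p = q := by
      intro p q h
      simp only [emb, Prod.mk.injEq] at h
      exact Prod.ext (by exact_mod_cast h.1) (by exact_mod_cast h.2)
    rcases hε with rfl | rfl
    · left; rw [one_smul] at h; exact inj _ _ h
    · right; rw [neg_one_smul, neg_emb] at h; exact inj _ _ h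
  rcases Nat.eq_zero_or_pos a with ha0 | ha0
  · subst ha0
    rcases Nat.lt_or_ge b 2 with hb2 | hb2
    · have : b = 0 ∨ b = 1 := by omega
      rcases this with rfl | rfl
      · simp at hdec; exact absurd hdec hv0
      · simp at hdec; exact hfin _ hdec
    · exfalso
      apply hint
      obtain ⟨c, rfl⟩ : ∃ c, b = c + 1 := ⟨b - 1, by omega⟩
      have h6 := interior_of_sum hs ht m2 (hsum 0 c (by omega))
      rw [hdec]
      convert h6 using 1
      rw [succ_nsmul']; simp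
  · obtain ⟨c, rfl⟩ : ∃ c, a = c + 1 := ⟨a - 1, by omega⟩
    rcases Nat.eq_zero_or_pos (c + b) with hc | hc
    · have hc0 : c = 0 := by omega
      have hb0 : b = 0 := by omega
      subst hc0; subst hb0
      simp at hdec
      exact hfin _ hdec
    · exfalso
      apply hint
      have h6 := interior_of_sum hs ht m1 (hsum c b hc)
      rw [hdec]
      convert h6 using 1
      rw [succ_nsmul', add_assoc]

end Pool.Agent.X123.Sail
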