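import Pool.Agent.X123.Sail.Est

/-!
# Lower bound for the discrepancy of pairs of points of the sails
-/

namespace Pool.Agent.X123.Sail

open Real
open scoped goldenRatio

theorem phi_lo : (1.618 : ℝ) < φ := by have := s5lo; rw [phi_def]; linarith
theorem phi_hi : φ < 1.61805 := by have := s5hi; rw [phi_def]; linarith
theorem psi_lo : (-0.61805 : ℝ) < ψ := by have := s5hi; rw [psi_def]; linarith
theorem psi_hi : ψ < -0.618 := by have := s5lo; rw [psi_def]; linarith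

theorem abs_psi_pow_le (n : ℕ) : |ψ ^ (n + 2)| ≤ 0.382 := by
  have h1 := psi_lo
  have h2 := psi_hi
  have h3 : |ψ| ≤ 1 := by rw [abs_le]; constructor <;> linarith
  rw [abs_pow, pow_add]
  have h4 : |ψ| ^ n ≤ 1 := pow_le_one₀ (abs_nonneg _) h3
  have h5 : |ψ| ^ 2 ≤ 0.382 := by rw [sq_abs]; nlinarith
  have h6 : 0 ≤ |ψ| ^ 2 := by positivity
  nlinarith

theorem psi_pow_ge (t : ℕ) (ht : 1 ≤ t) : ψ ≤ ψ ^ t := by
  have h1 := psi_lo
  have h2 := psi_hi
  obtain ⟨r, rfl⟩ : ∃ r, t = r + 1 := ⟨t - 1, by omega⟩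
  have h3 : |ψ| ≤ 1 := by rw [abs_le]; constructor <;> linarith
  have h4 : |ψ| ^ r ≤ 1 := pow_le_one₀ (abs_nonneg _) h3
  have h5 : |ψ ^ (r + 1)| ≤ |ψ| := by
    rw [abs_pow, pow_succ]
    have := abs_nonneg ψ
    nlinarith
  have h6 := neg_abs_le (ψ ^ (r + 1))
  rw [abs_of_neg (by linarith : ψ < 0)] at h5
  linarith

theorem phi_pow_ge (t : ℕ) (ht : 1 ≤ t) : φ ≤ φ ^ t := by
  have h1 := one_lt_goldenRatio
  exact le_self_pow₀ h1.le (by omega)

/-- main estimate for `X = P² φ^t + Q² ψ^t` -/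
theorem core (U V z c σ : ℝ) (hσ : σ = 1 ∨ σ = -1) (hz : |z| ≤ 0.382)
    (h : c + 764800 ≤ U * φ + V * ψ) (u v : ℝ) (hc : 0 ≤ c) (huv : U * φ + V * ψ ≤ u + v) :
    c ≤ |(-(σ * (u + v)) + 2 * 1000999 * z)| := by
  have h1 : |2 * 1000999 * z| ≤ 764800 := by
    rw [abs_mul, abs_of_pos (by norm_num : (0 : ℝ) < 2 * 1000999)]
    linarith
  have h2 : |σ * (u + v)| = u + v := by
    have : 0 ≤ u + v := by linarith
    rcases hσ with rfl | rfl
    · rw [one_mul, abs_of_nonneg this]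
    · rw [neg_one_mul, abs_neg, abs_of_nonneg this]
  have h3 := abs_sub_abs_le_abs_sub (-(σ * (u + v))) (-(2 * 1000999 * z))
  rw [abs_neg, abs_neg, h2, sub_neg_eq_add] at h3
  linarith

theorem real_est (p q : ℕ) (hp : 1 ≤ p) (hq : 1 ≤ q) :
    200000 ≤ |((1000 + φ) * φ ^ p - (1000 + ψ) * ψ ^ p) * ((1000 + ψ) * φ ^ q - (1000 + φ) * ψ ^ q)
      - 1000999 * (φ ^ (p + q) - ψ ^ (p + q))| := by
  have a1 := phi_lo
  have a2 := phi_hi
  have a3 := psi_lo
  have a4 := psi_hi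
  have hpsi := goldenRatio_mul_goldenConj
  have hPQ := PQ
  have E : ((1000 + φ) * φ ^ p - (1000 + ψ) * ψ ^ p) * ((1000 + ψ) * φ ^ q - (1000 + φ) * ψ ^ q)
      - 1000999 * (φ ^ (p + q) - ψ ^ (p + q)) =
      -((1000 + φ) ^ 2 * (φ ^ p * ψ ^ q) + (1000 + ψ) ^ 2 * (ψ ^ p * φ ^ q))
        + 2 * 1000999 * ψ ^ (p + q) := by
    rw [pow_add, pow_add]
    linear_combination (φ ^ p * φ ^ q + ψ ^ p * ψ ^ q) * hPQ
  rw [E]
  have hsgn : ∀ r : ℕ, ((-1 : ℝ)) ^ r = 1 ∨ ((-1 : ℝ)) ^ r = -1 := neg_one_pow_eq_or ℝ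
  rcases le_total q p with h | h
  · obtain ⟨t, rfl⟩ := Nat.exists_eq_add_of_le h
    have e1 : φ ^ (q + t) * ψ ^ q = (-1) ^ q * φ ^ t := by
      rw [← hpsi, mul_pow, pow_add]; ring
    have e2 : ψ ^ (q + t) * φ ^ q = (-1) ^ q * ψ ^ t := by
      rw [← hpsi, mul_pow, pow_add]; ring
    have e3 : -((1000 + φ) ^ 2 * (φ ^ (q + t) * ψ ^ q) + (1000 + ψ) ^ 2 * (ψ ^ (q + t) * φ ^ q))
        = -((-1) ^ q * ((1000 + φ) ^ 2 * φ ^ t + (1000 + ψ) ^ 2 * ψ ^ t)) := by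
      rw [e1, e2]; ring
    rw [e3]
    obtain ⟨r, hr⟩ : ∃ r, q + t + q = r + 2 := ⟨q + t + q - 2, by omega⟩
    refine core ((1000 + φ) ^ 2) ((1000 + ψ) ^ 2) _ 200000 _ (hsgn q)
      (by rw [hr]; exact abs_psi_pow_le r) ?_ _ _ (by norm_num) ?_
    · nlinarith
    · rcases Nat.eq_zero_or_pos t with rfl | ht
      · nlinarith
      · have b1 := phi_pow_ge t ht
        have b2 := psi_pow_ge t ht
        have b3 := mul_le_mul_of_nonneg_left b1 (sq_nonneg (1000 + φ))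
        have b4 := mul_le_mul_of_nonneg_left b2 (sq_nonneg (1000 + ψ))
        linarith
  · obtain ⟨t, rfl⟩ := Nat.exists_eq_add_of_le h
    have e1 : φ ^ p * ψ ^ (p + t) = (-1) ^ p * ψ ^ t := by
      rw [← hpsi, mul_pow, pow_add]; ring
    have e2 : ψ ^ p * φ ^ (p + t) = (-1) ^ p * φ ^ t := by
      rw [← hpsi, mul_pow, pow_add]; ring
    have e3 : -((1000 + φ) ^ 2 * (φ ^ p * ψ ^ (p + t)) + (1000 + ψ) ^ 2 * (ψ ^ p * φ ^ (p + t)))
        = -((-1) ^ p * ((1000 + ψ) ^ 2 * φ ^ t + (1000 + φ) ^ 2 * ψ ^ t)) := by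
      rw [e1, e2]; ring
    rw [e3]
    obtain ⟨r, hr⟩ : ∃ r, p + (p + t) = r + 2 := ⟨p + (p + t) - 2, by omega⟩
    refine core ((1000 + ψ) ^ 2) ((1000 + φ) ^ 2) _ 200000 _ (hsgn p)
      (by rw [hr]; exact abs_psi_pow_le r) ?_ _ _ (by norm_num) ?_
    · nlinarith
    · rcases Nat.eq_zero_or_pos t with rfl | ht
      · nlinarith
      · have b1 := phi_pow_ge t ht
        have b2 := psi_pow_ge t ht
        have b3 := mul_le_mul_of_nonneg_left b1 (sq_nonneg (1000 + ψ))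
        have b4 := mul_le_mul_of_nonneg_left b2 (sq_nonneg (1000 + φ))
        linarith

theorem fib_pos' {n : ℕ} (h : 1 ≤ n) : (1 : ℝ) ≤ Nat.fib n := by
  exact_mod_cast Nat.fib_pos.2 h

theorem abs_det_e (a b : ℤ) :
    |((e a).1 * (e b).2 - (e b).1 * (e a).2 : ℝ)| = Nat.fib (a - b).natAbs := by
  have h1 : (φ ^ a * ψ ^ b - ψ ^ a * φ ^ b) / √5 = (-1) ^ b * ((Int.fib (a - b) : ℤ) : ℝ) := by
    rw [coe_intFib_eq, ← goldenRatio_mul_goldenConj, mul_zpow, ← mul_div_assoc]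
    congr 1
    rw [zpow_sub₀ goldenRatio_ne_zero, zpow_sub₀ goldenConj_ne_zero]
    have := zpow_ne_zero b goldenRatio_ne_zero
    have := zpow_ne_zero b goldenConj_ne_zero
    field_simp
  rw [det_e, h1, abs_mul, abs_zpow, abs_neg, abs_one, one_zpow, one_mul]
  rcases eq_or_ne (a - b) 0 with h | h
  · rw [h]; simp
  · have := (e_size (a - b) h).1
    rw [← Int.cast_abs]
    exact_mod_cast this

theorem K_lo : (447600 : ℝ) < 1000999 / √5 := by
  rw [lt_div_iff₀ s5pos]; have := s5hi; nlinarith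
theorem K_hi : 1000999 / √5 < 447700 := by
  rw [div_lt_iff₀ s5pos]; have := s5lo; nlinarith

theorem abs_c0 (v w : ℤ × ℤ) : |c0 v w| = |(v.2 : ℝ)| * |(w.2 : ℝ)| /
    |(v.1 * w.2 - w.1 * v.2 : ℝ)| := by
  rw [c0, abs_div, abs_mul]

theorem low_zero (b : ℤ) (hb : b ≠ 0) : 40000 ≤ |(|c0 (e 0) (e b)| - 1000999 / √5)| := by
  obtain ⟨h1, h2, h3⟩ := e_size b hb
  have hb1 : (1 : ℝ) ≤ Nat.fib b.natAbs := fib_pos' (by omega)
  have h4 : |c0 (e 0) (e b)| ≤ 1002 := by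
    rw [abs_c0, abs_det_e, zero_sub, Int.natAbs_neg, div_le_iff₀ (by linarith)]
    have h5 : |((e b).2 : ℝ)| ≤ 1002 * Nat.fib b.natAbs := by exact_mod_cast h3
    have h6 : |((e 0).2 : ℝ)| = 1 := by simp [e]
    rw [h6, one_mul]
    exact h5
  have := K_lo
  rw [abs_of_neg (by linarith)]
  linarith

theorem low_same (a b : ℤ) (hab : a ≠ b) (h : 0 < a * b) :
    40000 ≤ |(|c0 (e a) (e b)| - 1000999 / √5)| := by
  have ha : a ≠ 0 := by rintro rfl; simp at h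
  have hb : b ≠ 0 := by rintro rfl; simp at h
  obtain ⟨h1, h2, h3⟩ := e_size a ha
  obtain ⟨g1, g2, g3⟩ := e_size b hb
  have hb1 : (1 : ℝ) ≤ Nat.fib b.natAbs := fib_pos' (by omega)
  have ha1 : (1 : ℝ) ≤ Nat.fib a.natAbs := fib_pos' (by omega)
  have hd1 : (1 : ℝ) ≤ Nat.fib (a - b).natAbs := fib_pos' (by omega)
  have h2' : 999 * (Nat.fib a.natAbs : ℝ) ≤ |((e a).2 : ℝ)| := by exact_mod_cast h2
  have g2' : 999 * (Nat.fib b.natAbs : ℝ) ≤ |((e b).2 : ℝ)| := by exact_mod_cast g2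
  have hle : (Nat.fib (a - b).natAbs : ℝ) ≤ Nat.fib a.natAbs * Nat.fib b.natAbs := by
    rcases lt_or_gt_of_ne ha with ha0 | ha0
    · have hb0 : b < 0 := by nlinarith
      rcases le_total a.natAbs b.natAbs with hc | hc
      · have : Nat.fib (a - b).natAbs ≤ Nat.fib b.natAbs := Nat.fib_mono (by omega)
        have : (Nat.fib (a - b).natAbs : ℝ) ≤ Nat.fib b.natAbs := by exact_mod_cast this
        nlinarith
      · have : Nat.fib (a - b).natAbs ≤ Nat.fib a.natAbs := Nat.fib_mono (by omega)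
        have : (Nat.fib (a - b).natAbs : ℝ) ≤ Nat.fib a.natAbs := by exact_mod_cast this
        nlinarith
    · have hb0 : 0 < b := by nlinarith
      rcases le_total a.natAbs b.natAbs with hc | hc
      · have : Nat.fib (a - b).natAbs ≤ Nat.fib b.natAbs := Nat.fib_mono (by omega)
        have : (Nat.fib (a - b).natAbs : ℝ) ≤ Nat.fib b.natAbs := by exact_mod_cast this
        nlinarith
      · have : Nat.fib (a - b).natAbs ≤ Nat.fib a.natAbs := Nat.fib_mono (by omega)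
        have : (Nat.fib (a - b).natAbs : ℝ) ≤ Nat.fib a.natAbs := by exact_mod_cast this
        nlinarith
  have h4 : 998001 ≤ |c0 (e a) (e b)| := by
    rw [abs_c0, abs_det_e, le_div_iff₀ (by linarith)]
    calc (998001 : ℝ) * Nat.fib (a - b).natAbs ≤ 998001 * (Nat.fib a.natAbs * Nat.fib b.natAbs) := by
          linarith
      _ = (999 * Nat.fib a.natAbs) * (999 * Nat.fib b.natAbs) := by ring
      _ ≤ _ := mul_le_mul h2' g2' (by positivity) (abs_nonneg _)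
  have := K_hi
  rw [abs_of_pos (by linarith)]
  linarith

theorem low_opp (p q : ℕ) (hp : 1 ≤ p) (hq : 1 ≤ q) :
    40000 / Nat.fib (p + q) ≤ |(|c0 (e p) (e (-q))| - 1000999 / √5)| := by
  have h5 := s5pos
  have a1 := phi_lo
  have a3 := psi_lo
  have a4 := psi_hi
  have hF : (1 : ℝ) ≤ Nat.fib (p + q) := fib_pos' (by omega)
  have hd : (((p : ℤ) - -(q : ℤ))).natAbs = p + q := by omega
  rw [abs_c0, abs_det_e, hd]
  have hGp : √5 * |((e p).2 : ℝ)| = (1000 + φ) * φ ^ p - (1000 + ψ) * ψ ^ p := by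
    have h0 : √5 * ((e p).2 : ℝ) = (1000 + φ) * φ ^ p - (1000 + ψ) * ψ ^ p := by
      rw [G_e, mul_div_cancel₀ _ h5.ne', zpow_natCast, zpow_natCast]
    rw [← h0, ← abs_of_pos h5, ← abs_mul, abs_of_pos h5, abs_of_nonneg]
    rw [h0]
    have := phi_pow_ge p hp
    have h7 : ψ ^ p ≤ 1 := by
      refine (le_abs_self _).trans ?_
      rw [abs_pow]
      exact pow_le_one₀ (abs_nonneg _) (by rw [abs_le]; constructor <;> linarith)
    nlinarith
  have hGq : √5 * |((e (-q)).2 : ℝ)| = (1000 + ψ) * φ ^ q - (1000 + φ) * ψ ^ q := by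
    have hpsi := goldenRatio_mul_goldenConj
    have i1 : φ ^ (-(q : ℤ)) = (-1) ^ q * ψ ^ q := by
      rw [zpow_neg, zpow_natCast, ← hpsi, mul_pow]
      have : φ ^ q ≠ 0 := by positivity
      rw [inv_eq_iff_eq_inv, eq_comm, inv_eq_iff_eq_inv, eq_comm]
      apply inv_eq_of_mul_eq_one_right
      have h11 : (φ * ψ) ^ q * (φ * ψ) ^ q = 1 := by
        rw [hpsi, ← mul_pow]; norm_num
      rw [mul_pow] at h11
      linear_combination h11
    have i2 : ψ ^ (-(q : ℤ)) = (-1) ^ q * φ ^ q := by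
      rw [zpow_neg, zpow_natCast, ← hpsi, mul_pow]
      apply inv_eq_of_mul_eq_one_right
      have h11 : (φ * ψ) ^ q * (φ * ψ) ^ q = 1 := by
        rw [hpsi, ← mul_pow]; norm_num
      rw [mul_pow] at h11
      linear_combination h11
    have h0 : √5 * ((e (-q)).2 : ℝ) =
        (-1) ^ q * -((1000 + ψ) * φ ^ q - (1000 + φ) * ψ ^ q) := by
      rw [G_e, mul_div_cancel₀ _ h5.ne', i1, i2]
      ring
    have h1 : √5 * |((e (-q)).2 : ℝ)| = |√5 * ((e (-q)).2 : ℝ)| := by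
      rw [abs_mul, abs_of_pos h5]
    rw [h1, h0, abs_mul, abs_pow, abs_neg, abs_one, one_pow, one_mul, abs_neg, abs_of_nonneg]
    have := phi_pow_ge q hq
    have h7 : ψ ^ q ≤ 1 := by
      refine (le_abs_self _).trans ?_
      rw [abs_pow]
      exact pow_le_one₀ (abs_nonneg _) (by rw [abs_le]; constructor <;> linarith)
    nlinarith
  have hFn : √5 * (Nat.fib (p + q) : ℝ) = φ ^ (p + q) - ψ ^ (p + q) := by
    rw [coe_fib_eq, mul_div_cancel₀ _ h5.ne']
  have hest := real_est p q hp hq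
  rw [← hGp, ← hGq, ← hFn] at hest
  have hF0 : (0 : ℝ) < Nat.fib (p + q) := by linarith
  rw [div_le_iff₀ hF0, ← abs_of_pos hF0, ← abs_mul, abs_of_pos hF0]
  have e1 : √5 * |((e p).2 : ℝ)| * (√5 * |((e (-q)).2 : ℝ)|) - 1000999 * (√5 * Nat.fib (p + q))
      = 5 * ((|((e p).2 : ℝ)| * |((e (-q)).2 : ℝ)| / Nat.fib (p + q) - 1000999 / √5) *
        Nat.fib (p + q)) := by
    have h55 := s5
    field_simp
    linear_combination (√5 * |((e p).2 : ℝ)| * |((e (-q)).2 : ℝ)| - 1000999 * Nat.fib (p + q)) * h55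
  rw [e1, abs_mul, abs_of_pos (by norm_num : (0 : ℝ) < 5)] at hest
  linarith

theorem c0_comm (v w : ℤ × ℤ) : |c0 v w| = |c0 w v| := by
  rw [abs_c0, abs_c0, mul_comm, abs_sub_comm]

/-- **Lower bound.** -/
theorem low (a b : ℤ) (hab : a ≠ b) :
    40000 / Nat.fib (a.natAbs + b.natAbs) ≤ |(|c0 (e a) (e b)| - 1000999 / √5)| := by
  have hF : (1 : ℝ) ≤ Nat.fib (a.natAbs + b.natAbs) := fib_pos' (by omega)
  have h1 : (40000 : ℝ) / Nat.fib (a.natAbs + b.natAbs) ≤ 40000 :=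
    div_le_self (by norm_num) hF
  rcases eq_or_ne a 0 with rfl | ha
  · exact h1.trans (low_zero b (Ne.symm hab))
  rcases eq_or_ne b 0 with rfl | hb
  · rw [c0_comm]
    exact h1.trans (low_zero a ha)
  rcases lt_or_gt_of_ne ha with ha0 | ha0 <;> rcases lt_or_gt_of_ne hb with hb0 | hb0
  · exact h1.trans (low_same a b hab (mul_pos_of_neg_of_neg ha0 hb0))
  · rw [c0_comm]
    have := low_opp b.natAbs a.natAbs (by omega) (by omega)
    rw [show ((b.natAbs : ℕ) : ℤ) = b by omega, show -((a.natAbs : ℕ) : ℤ) = a by omega,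
      add_comm] at this
    exact this
  · have := low_opp a.natAbs b.natAbs (by omega) (by omega)
    rw [show ((a.natAbs : ℕ) : ℤ) = a by omega, show -((b.natAbs : ℕ) : ℤ) = b by omega] at this
    exact this
  · exact h1.trans (low_same a b hab (mul_pos ha0 hb0))

end Pool.Agent.X123.Sail
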